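import Mathlib

/-!
The boldface projective hierarchy on arbitrary topological spaces (projections along Baire
space), its elementary closure properties, and the standard probability measure of Baire space.
-/

namespace H97Proj

open MeasureTheory Set Topology
open scoped ENNReal

/-- Baire space. -/
abbrev Baire : Type := ℕ → ℕ

/-- `IsSigma k X A`: the set `A` is boldface Sigma^1_k in `X`, where the Sigma^1_0 sets are the
open sets, and the Sigma^1_(k+1) sets are the projections along Baire space of the complements of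
Sigma^1_k sets (so Sigma^1_1 = projections of closed sets). -/
def IsSigma : ℕ → ∀ (X : Type) [TopologicalSpace X], Set X → Prop
  | 0 => fun _ _ A => IsOpen A
  | k + 1 => fun X _ A => ∃ B : Set (X × Baire), IsSigma k (X × Baire) Bᶜ ∧ A = Prod.fst '' B

/-- `IsPi k X A`: the set `A` is boldface Pi^1_k in `X`, i.e. its complement is Sigma^1_k. -/
def IsPi (k : ℕ) (X : Type) [TopologicalSpace X] (A : Set X) : Prop := IsSigma k X Aᶜ

/-- The probability measure on the natural numbers giving `n` the mass `2 ^ (-(n+1))`. -/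
noncomputable def geo : Measure ℕ :=
  Measure.sum fun n : ℕ => ((2 : ℝ≥0∞)⁻¹ ^ (n + 1)) • Measure.dirac n

instance geo_prob : IsProbabilityMeasure geo := by
  constructor
  have h : ∑' n : ℕ, (2 : ℝ≥0∞)⁻¹ ^ (n + 1) = 1 := by
    have := ENNReal.tsum_geometric_add_one (2 : ℝ≥0∞)⁻¹
    rw [this, ENNReal.one_sub_inv_two, inv_inv, ENNReal.inv_mul_cancel] <;> norm_num
  rw [geo, Measure.sum_apply _ MeasurableSet.univ]
  simpa using h

/-- Lebesgue measure on Baire space: the product measure of `geo`, i.e. the measure giving the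
basic open set of all extensions of `(s_0, ..., s_(k-1))` the mass
`2 ^ (-(s_0+1) - ... - (s_(k-1)+1))`. -/
noncomputable def lam : Measure Baire := Measure.infinitePi fun _ : ℕ => geo

instance lam_prob : IsProbabilityMeasure lam := by
  unfold lam; infer_instance

/-! ### Closure properties -/

section closure

variable {k : ℕ} {X Y : Type} [TopologicalSpace X] [TopologicalSpace Y]

lemma isSigma_zero {A : Set X} : IsSigma 0 X A ↔ IsOpen A := Iff.rfl

lemma isSigma_succ {A : Set X} :
    IsSigma (k + 1) X A ↔
      ∃ B : Set (X × Baire), IsSigma k (X × Baire) Bᶜ ∧ A = Prod.fst '' B := Iff.rfl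

lemma isSigma_succ' {A : Set X} (B : Set (X × Baire)) (hB : IsSigma k (X × Baire) Bᶜ)
    (h : ∀ x, x ∈ A ↔ ∃ w, (x, w) ∈ B) : IsSigma (k + 1) X A := by
  refine ⟨B, hB, ?_⟩
  ext x
  rw [h]
  simp

theorem IsSigma.preimage {f : X → Y} (hf : Continuous f) {A : Set Y} (h : IsSigma k Y A) :
    IsSigma k X (f ⁻¹' A) := by
  induction k generalizing X Y with
  | zero => exact IsOpen.preimage hf h
  | succ k ih =>
    obtain ⟨B, hB, rfl⟩ := h
    refine isSigma_succ' ((Prod.map f id) ⁻¹' B) ?_ ?_
    · have := ih (f := Prod.map f (id : Baire → Baire)) (hf.prodMap continuous_id) hB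
      rwa [preimage_compl] at this
    · intro x
      simp

/-- the two halves of a real -/
def lft (w : Baire) : Baire := fun n => w (2 * n)
/-- the two halves of a real -/
def rgt (w : Baire) : Baire := fun n => w (2 * n + 1)
/-- pairing of reals -/
def join (u v : Baire) : Baire := fun n => if n % 2 = 0 then u (n / 2) else v (n / 2)

@[simp] lemma lft_join (u v : Baire) : lft (join u v) = u := by
  funext n; simp [lft, join]

@[simp] lemma rgt_join (u v : Baire) : rgt (join u v) = v := by
  funext n
  have h1 : (2 * n + 1) % 2 = 1 := by omega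
  have h2 : (2 * n + 1) / 2 = n := by omega
  simp [rgt, join, h1, h2]

lemma continuous_lft : Continuous lft := by unfold lft; fun_prop
lemma continuous_rgt : Continuous rgt := by unfold rgt; fun_prop

lemma isSigma_union_inter (k : ℕ) : ∀ (X : Type) [TopologicalSpace X] (A B : Set X),
    IsSigma k X A → IsSigma k X B → IsSigma k X (A ∪ B) ∧ IsSigma k X (A ∩ B) := by
  induction k with
  | zero => exact fun X _ A B hA hB => ⟨IsOpen.union hA hB, IsOpen.inter hA hB⟩
  | succ k ih =>
    rintro X _ _ _ ⟨A, hA, rfl⟩ ⟨B, hB, rfl⟩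
    constructor
    · refine isSigma_succ' (A ∪ B) ?_ ?_
      · rw [compl_union]
        exact (ih _ _ _ hA hB).2
      · intro x
        simp only [mem_union, mem_image, Prod.exists, exists_and_right, exists_eq_right]
        constructor
        · rintro (⟨w, h⟩ | ⟨w, h⟩)
          · exact ⟨w, Or.inl h⟩
          · exact ⟨w, Or.inr h⟩
        · rintro ⟨w, h | h⟩
          · exact Or.inl ⟨w, h⟩
          · exact Or.inr ⟨w, h⟩
    · refine isSigma_succ' ((fun p : X × Baire => (p.1, lft p.2)) ⁻¹' A ∩
        (fun p : X × Baire => (p.1, rgt p.2)) ⁻¹' B) ?_ ?_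
      · rw [compl_inter]
        refine (ih _ _ _ ?_ ?_).1
        · rw [← preimage_compl]
          exact IsSigma.preimage (continuous_fst.prodMk (continuous_lft.comp continuous_snd)) hA
        · rw [← preimage_compl]
          exact IsSigma.preimage (continuous_fst.prodMk (continuous_rgt.comp continuous_snd)) hB
      · intro x
        simp only [mem_inter_iff, mem_image, Prod.exists, exists_and_right, exists_eq_right,
          mem_preimage]
        constructor
        · rintro ⟨⟨u, hu⟩, ⟨v, hv⟩⟩
          exact ⟨join u v, by simpa using hu, by simpa using hv⟩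
        · rintro ⟨w, h1, h2⟩
          exact ⟨⟨_, h1⟩, ⟨_, h2⟩⟩

theorem IsSigma.union {A B : Set X} (hA : IsSigma k X A) (hB : IsSigma k X B) :
    IsSigma k X (A ∪ B) := (isSigma_union_inter k X A B hA hB).1

theorem IsSigma.inter {A B : Set X} (hA : IsSigma k X A) (hB : IsSigma k X B) :
    IsSigma k X (A ∩ B) := (isSigma_union_inter k X A B hA hB).2

/-- projections along Baire space -/
theorem IsSigma.proj {A : Set (X × Baire)} (hA : IsSigma (k + 1) (X × Baire) A) :
    IsSigma (k + 1) X {x | ∃ w, (x, w) ∈ A} := by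
  obtain ⟨B, hB, rfl⟩ := hA
  refine isSigma_succ' ((fun p : X × Baire => ((p.1, lft p.2), rgt p.2)) ⁻¹' B) ?_ ?_
  · rw [← preimage_compl]
    exact IsSigma.preimage ((continuous_fst.prodMk (continuous_lft.comp continuous_snd)).prodMk
      (continuous_rgt.comp continuous_snd)) hB
  · intro x
    simp only [mem_image, Prod.exists, exists_and_right, exists_eq_right, mem_preimage,
      mem_setOf_eq]
    constructor
    · rintro ⟨u, v, h⟩
      exact ⟨join u v, by simpa using h⟩
    · rintro ⟨w, h⟩
      exact ⟨_, _, h⟩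

/-- complements of Sigma^1_k sets are Sigma^1_(k+1) -/
theorem IsSigma.compl_succ {A : Set X} (hA : IsSigma k X A) : IsSigma (k + 1) X Aᶜ := by
  refine isSigma_succ' (Prod.fst ⁻¹' Aᶜ) ?_ ?_
  · rw [← preimage_compl, compl_compl]
    exact IsSigma.preimage continuous_fst hA
  · intro x
    simp

/-- the projection of a Pi^1_k set is Sigma^1_(k+1) -/
theorem isSigma_proj_compl {A : Set (X × Baire)} (hA : IsSigma k (X × Baire) Aᶜ) :
    IsSigma (k + 1) X {x | ∃ w, (x, w) ∈ A} :=
  isSigma_succ' A hA fun _ => Iff.rfl

/-- clopen sets are in all classes -/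
theorem isSigma_of_isClopen (k : ℕ) : ∀ (X : Type) [TopologicalSpace X] (A : Set X),
    IsClopen A → IsSigma k X A := by
  induction k with
  | zero => exact fun X _ A hA => hA.isOpen
  | succ k ih =>
    intro X _ A hA
    have := (ih X Aᶜ hA.compl).compl_succ
    rwa [compl_compl] at this

lemma isSigma_diag (k : ℕ) : ∀ (X : Type) [TopologicalSpace X] (A : ℕ → Set X),
    (∀ i, IsSigma k X (A i)) → IsSigma k (X × Baire) {p | p.1 ∈ A (p.2 0)} := by
  induction k with
  | zero =>
    intro X _ A hA
    have : {p : X × Baire | p.1 ∈ A (p.2 0)} =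
        ⋃ i : ℕ, (Prod.fst ⁻¹' (A i)) ∩ ((fun p : X × Baire => p.2 0) ⁻¹' {i}) := by
      ext p; simp
    rw [this]
    refine isOpen_iUnion fun i => IsOpen.inter ((hA i).preimage continuous_fst) ?_
    exact (isOpen_discrete {i}).preimage (by fun_prop)
  | succ k ih =>
    intro X _ A hA
    choose B hB hAB using hA
    refine isSigma_succ' {q : (X × Baire) × Baire | (q.1.1, q.2) ∈ B (q.1.2 0)} ?_ ?_
    · have h1 := ih (X × Baire) (fun i => (B i)ᶜ) hB
      have h2 : Continuous (fun q : (X × Baire) × Baire => ((q.1.1, q.2), q.1.2)) := by fun_prop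
      exact h1.preimage h2
    · rintro ⟨x, w⟩
      simp only [mem_setOf_eq]
      rw [hAB]
      simp

theorem IsSigma.iUnion : ∀ {k : ℕ} {X : Type} [TopologicalSpace X] {A : ℕ → Set X},
    (∀ i, IsSigma k X (A i)) → IsSigma k X (⋃ i, A i)
  | 0, _, _, _, hA => isOpen_iUnion hA
  | k + 1, X, _, A, hA => by
    have := (isSigma_diag (k + 1) X A hA).proj
    convert this using 1
    ext x
    simp only [mem_iUnion, mem_setOf_eq]
    constructor
    · rintro ⟨i, hi⟩
      exact ⟨fun _ => i, hi⟩
    · rintro ⟨w, hw⟩
      exact ⟨_, hw⟩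

theorem IsSigma.iInter {A : ℕ → Set X}
    (hA : ∀ i, IsSigma (k + 1) X (A i)) : IsSigma (k + 1) X (⋂ i, A i) := by
  choose B hB hAB using hA
  refine isSigma_succ' (⋂ i, (fun p : X × Baire => (p.1, fun n => p.2 (Nat.pair i n))) ⁻¹' (B i))
    ?_ ?_
  · rw [compl_iInter]
    refine IsSigma.iUnion fun i => ?_
    rw [← preimage_compl]
    refine IsSigma.preimage ?_ (hB i)
    fun_prop
  · intro x
    simp only [mem_iInter, mem_preimage]
    constructor
    · intro h
      have h' : ∀ i, ∃ w, (x, w) ∈ B i := by
        intro i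
        have := h i
        rw [hAB] at this
        simpa using this
      choose w hw using h'
      refine ⟨fun n => w (Nat.unpair n).1 (Nat.unpair n).2, fun i => ?_⟩
      simpa using hw i
    · rintro ⟨w, hw⟩ i
      rw [hAB]
      exact ⟨_, hw i, rfl⟩

/-- On metrizable spaces the classes Sigma^1_k increase with `k`. -/
theorem isSigma_mono_succ (k : ℕ) : ∀ (X : Type) [TopologicalSpace X]
    [TopologicalSpace.MetrizableSpace X] (A : Set X), IsSigma k X A → IsSigma (k + 1) X A := by
  induction k with
  | zero =>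
    intro X _ _ A hA
    letI := TopologicalSpace.metrizableSpaceMetric X
    obtain ⟨F, hF1, -, hF3, -⟩ := IsOpen.exists_iUnion_isClosed (show IsOpen A from hA)
    rw [← hF3]
    refine IsSigma.iUnion fun i => ?_
    have h1 : IsSigma 0 X (F i)ᶜ := (hF1 i).isOpen_compl
    have h2 := h1.compl_succ
    rwa [compl_compl] at h2
  | succ k ih =>
    rintro X _ _ _ ⟨B, hB, rfl⟩
    exact ⟨B, ih _ _ hB, rfl⟩

theorem isSigma_mono {k l : ℕ} (hkl : k ≤ l) {X : Type} [TopologicalSpace X]
    [TopologicalSpace.MetrizableSpace X] {A : Set X} (hA : IsSigma k X A) : IsSigma l X A := by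
  induction l, hkl using Nat.le_induction with
  | base => exact hA
  | succ l _ ih => exact isSigma_mono_succ l X A ih

end closure

end H97Proj
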