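import Pool.Agent.Lib.H97Proj.Meas

/-!
The filter of Raisonnier attached to a set of reals, and its rapidity.
-/

namespace H97Proj

open MeasureTheory Set Topology Filter ProbabilityTheory
open scoped ENNReal

/-- The filter attached to `A`: the sets `a` such that `A` is covered by countably many sets in
which any two distinct points first differ at a place in `a`. -/
def FA (A : Set Baire) : Set (Set ℕ) :=
  {a | ∃ Y : ℕ → Set Baire, A ⊆ ⋃ j, Y j ∧
    ∀ j, ∀ x ∈ Y j, ∀ y ∈ Y j, x ≠ y → PiNat.firstDiff x y ∈ a}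

lemma FA_of_countable {A : Set Baire} {a : Set ℕ} {ι : Type*} [Encodable ι] (Y : ι → Set Baire)
    (hA : A ⊆ ⋃ i, Y i) (h : ∀ i, ∀ x ∈ Y i, ∀ y ∈ Y i, x ≠ y → PiNat.firstDiff x y ∈ a) :
    a ∈ FA A := by
  refine ⟨fun j => {x | ∃ i, Encodable.encode i = j ∧ x ∈ Y i}, ?_, ?_⟩
  · intro x hx
    obtain ⟨i, hi⟩ := mem_iUnion.1 (hA hx)
    exact mem_iUnion.2 ⟨_, i, rfl, hi⟩
  · rintro j x ⟨i, hi, hx⟩ y ⟨i', hi', hy⟩ hxy
    have : i' = i := Encodable.encode_injective (hi'.trans hi.symm)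
    subst this
    exact h _ x hx y hy hxy

lemma FA_up {A : Set Baire} {a b : Set ℕ} (ha : a ∈ FA A) (hab : a ⊆ b) : b ∈ FA A := by
  obtain ⟨Y, h1, h2⟩ := ha
  exact ⟨Y, h1, fun j x hx y hy hxy => hab (h2 j x hx y hy hxy)⟩

lemma FA_inter {A : Set Baire} {a b : Set ℕ} (ha : a ∈ FA A) (hb : b ∈ FA A) :
    a ∩ b ∈ FA A := by
  obtain ⟨Y, h1, h2⟩ := ha
  obtain ⟨Z, h3, h4⟩ := hb
  refine FA_of_countable (fun p : ℕ × ℕ => Y p.1 ∩ Z p.2) ?_ ?_
  · intro x hx
    obtain ⟨i, hi⟩ := mem_iUnion.1 (h1 hx)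
    obtain ⟨j, hj⟩ := mem_iUnion.1 (h3 hx)
    exact mem_iUnion.2 ⟨(i, j), hi, hj⟩
  · rintro ⟨i, j⟩ x hx y hy hxy
    exact ⟨h2 i x hx.1 y hy.1 hxy, h4 j x hx.2 y hy.2 hxy⟩

lemma le_firstDiff {x y : Baire} {N : ℕ} (hxy : x ≠ y) (h : PiNat.res x N = PiNat.res y N) :
    N ≤ PiNat.firstDiff x y := by
  by_contra hlt
  push Not at hlt
  exact PiNat.apply_firstDiff_ne hxy (PiNat.res_eq_res.1 h hlt)

lemma FA_del {A : Set Baire} {a : Set ℕ} (ha : a ∈ FA A) (N : ℕ) :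
    {k | k ∈ a ∧ N ≤ k} ∈ FA A := by
  obtain ⟨Y, h1, h2⟩ := ha
  refine FA_of_countable (fun p : ℕ × List ℕ => Y p.1 ∩ {x | PiNat.res x N = p.2}) ?_ ?_
  · intro x hx
    obtain ⟨i, hi⟩ := mem_iUnion.1 (h1 hx)
    exact mem_iUnion.2 ⟨(i, PiNat.res x N), hi, rfl⟩
  · rintro ⟨i, s⟩ x ⟨hx, hxs⟩ y ⟨hy, hys⟩ hxy
    exact ⟨h2 i x hx y hy hxy, le_firstDiff hxy (hxs.trans hys.symm)⟩

lemma FA_empty {A : Set Baire} (h : ∅ ∈ FA A) : A.Countable := by
  obtain ⟨Y, h1, h2⟩ := h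
  refine (countable_iUnion fun j => Subsingleton.countable ?_).mono h1
  intro x hx y hy
  by_contra hxy
  exact h2 j x hx y hy hxy

/-- the set of first differences of pairs of points of `Y` -/
def HD (Y : Set Baire) : Set ℕ := {k | ∃ x ∈ Y, ∃ y ∈ Y, x ≠ y ∧ PiNat.firstDiff x y = k}

lemma rapid_combine {A : Set Baire} {f : ℕ → ℕ} (hf : Monotone f) (Y : ℕ → Set Baire)
    (hA : A ⊆ ⋃ j, Y j)
    (hY : ∀ j, ∃ n C : ℕ, ∀ m, n ≤ m → cnt (HD (Y j)) (f m) ≤ C * 4 ^ m) :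
    ∃ a ∈ FA A, ∀ m, cnt a (f m) ≤ 16 ^ m := by
  classical
  choose n C hnC using hY
  let M : ℕ → ℕ := fun j => j + n j + C j
  refine ⟨{k | ∃ j, k ∈ HD (Y j) ∧ f (M j) ≤ k}, ?_, ?_⟩
  · refine FA_of_countable (fun p : ℕ × List ℕ => Y p.1 ∩ {x | PiNat.res x (f (M p.1)) = p.2})
      ?_ ?_
    · intro x hx
      obtain ⟨i, hi⟩ := mem_iUnion.1 (hA hx)
      exact mem_iUnion.2 ⟨(i, PiNat.res x (f (M i))), hi, rfl⟩
    · rintro ⟨i, s⟩ x ⟨hx, hxs⟩ y ⟨hy, hys⟩ hxy
      exact ⟨i, ⟨x, hx, y, hy, hxy, rfl⟩, le_firstDiff hxy (hxs.trans hys.symm)⟩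
  · intro m
    have h1 : cnt {k | ∃ j, k ∈ HD (Y j) ∧ f (M j) ≤ k} (f m) ≤
        ∑ j ∈ Finset.range m, (if M j < m then cnt (HD (Y j)) (f m) else 0) := by
      refine le_trans (Finset.card_le_card (t := (Finset.range m).biUnion fun j =>
        if M j < m then (Finset.range (f m)).filter (· ∈ HD (Y j)) else ∅) ?_) ?_
      · intro k hk
        rw [Finset.mem_filter, Finset.mem_range] at hk
        obtain ⟨hkm, j, hkj, hjk⟩ := hk
        have hMj : M j < m := by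
          by_contra hcon
          push Not at hcon
          have := hf hcon
          omega
        rw [Finset.mem_biUnion]
        refine ⟨j, ?_, ?_⟩
        · rw [Finset.mem_range]
          simp only [M] at hMj
          omega
        · rw [if_pos hMj, Finset.mem_filter, Finset.mem_range]
          exact ⟨hkm, hkj⟩
      · refine Finset.card_biUnion_le.trans (Finset.sum_le_sum fun j _ => ?_)
        split_ifs
        · exact le_rfl
        · simp
    refine h1.trans ?_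
    have h2 : ∀ j ∈ Finset.range m,
        (if M j < m then cnt (HD (Y j)) (f m) else 0) ≤ 2 ^ m * 4 ^ m := by
      intro j _
      split_ifs with hM
      · simp only [M] at hM
        refine (hnC j m (by omega)).trans (Nat.mul_le_mul_right _ ?_)
        have : m < 2 ^ m := Nat.lt_two_pow_self
        omega
      · exact Nat.zero_le _
    refine (Finset.sum_le_sum h2).trans ?_
    rw [Finset.sum_const, Finset.card_range, smul_eq_mul]
    have h3 : m ≤ 2 ^ m := Nat.lt_two_pow_self.le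
    calc m * (2 ^ m * 4 ^ m) ≤ 2 ^ m * (2 ^ m * 4 ^ m) := Nat.mul_le_mul_right _ h3
      _ = 16 ^ m := by rw [← mul_pow, ← mul_pow]; norm_num

/-- the coordinate watched by `x` at stage `m` -/
def cod (f : ℕ → ℕ) (m : ℕ) (x : Baire) : ℕ := Nat.pair m (Encodable.encode (PiNat.res x (f m)))

/-- the null set attached to `x` -/
def NN (f : ℕ → ℕ) (x : Baire) : Set Baire := {ω | ∃ᶠ m in atTop, m ≤ ω (cod f m x)}

lemma lam_NN (f : ℕ → ℕ) (x : Baire) : lam (NN f x) = 0 := lam_limsup fun m => cod f m x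

lemma cod_eq {f : ℕ → ℕ} {m : ℕ} {x y : Baire} (h : cod f m x = cod f m y) :
    ∀ i < f m, x i = y i := by
  unfold cod at h
  have h1 := (Nat.pair_eq_pair.1 h).2
  have h2 := Encodable.encode_injective h1
  exact fun i hi => PiNat.res_eq_res.1 h2 hi

lemma firstDiff_eq {x y : Baire} {k : ℕ} (h1 : ∀ i < k, x i = y i) (h2 : x k ≠ y k) :
    PiNat.firstDiff x y = k := by
  have hne : x ≠ y := fun h => h2 (by rw [h])
  refine le_antisymm ?_ ?_
  · by_contra h
    push Not at h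
    exact h2 (PiNat.apply_eq_of_lt_firstDiff h)
  · by_contra h
    push Not at h
    exact PiNat.apply_firstDiff_ne hne (h1 _ h)

/-- counting first differences in the pieces -/
lemma cnt_HD {f : ℕ → ℕ} {E : Set Baire} {C n : ℕ}
    (hC : ENNReal.ofReal (Real.exp (-C)) < lam E) (m : ℕ) (hm : n ≤ m) :
    cnt (HD {x | ∀ ω ∈ E, ∀ m, n ≤ m → ω (cod f m x) < m}) (f m) ≤ (C * C) * 4 ^ m := by
  classical
  set Y : Set Baire := {x | ∀ ω ∈ E, ∀ m, n ≤ m → ω (cod f m x) < m} with hY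
  set T : Finset ℕ := (Finset.range (f m)).filter (· ∈ HD Y) with hT
  have hch : ∀ k : ℕ, ∃ p : Baire × Baire, k ∈ HD Y → p.1 ∈ Y ∧ p.2 ∈ Y ∧ p.1 ≠ p.2 ∧
      PiNat.firstDiff p.1 p.2 = k := by
    intro k
    by_cases hk : k ∈ HD Y
    · obtain ⟨x, hx, y, hy, hxy, h⟩ := hk
      exact ⟨(x, y), fun _ => ⟨hx, hy, hxy, h⟩⟩
    · exact ⟨(0, 0), fun h => absurd h hk⟩
  choose p hp using hch
  let S : Finset ℕ := (T.image fun k => cod f m (p k).1) ∪ (T.image fun k => cod f m (p k).2)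
  have hS : S.card ≤ C * 2 ^ m := by
    apply card_bound hC
    intro c hc ω hω
    rw [Finset.mem_union, Finset.mem_image, Finset.mem_image] at hc
    rcases hc with ⟨k, hk, rfl⟩ | ⟨k, hk, rfl⟩
    · rw [hT, Finset.mem_filter] at hk
      exact (hp k hk.2).1 ω hω m hm
    · rw [hT, Finset.mem_filter] at hk
      exact (hp k hk.2).2.1 ω hω m hm
  have hTS : T.card ≤ (S ×ˢ S).card := by
    refine Finset.card_le_card_of_injOn (fun k => (cod f m (p k).1, cod f m (p k).2)) ?_ ?_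
    · intro k hk
      rw [Finset.mem_coe] at hk ⊢
      rw [Finset.mem_product]
      exact ⟨Finset.mem_union_left _ (Finset.mem_image_of_mem _ hk),
        Finset.mem_union_right _ (Finset.mem_image_of_mem _ hk)⟩
    · intro k hk k' hk' hkk
      rw [Finset.mem_coe, hT, Finset.mem_filter, Finset.mem_range] at hk hk'
      obtain ⟨-, -, hne, hk1⟩ := hp k hk.2
      obtain ⟨-, -, hne', hk1'⟩ := hp k' hk'.2
      simp only [Prod.mk.injEq] at hkk
      have e1 := cod_eq hkk.1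
      have e2 := cod_eq hkk.2
      have : PiNat.firstDiff (p k').1 (p k').2 = k := by
        apply firstDiff_eq
        · intro i hi
          rw [← e1 i (by omega), ← e2 i (by omega)]
          exact PiNat.apply_eq_of_lt_firstDiff (by omega)
        · rw [← e1 k hk.1, ← e2 k hk.1]
          have hh := PiNat.apply_firstDiff_ne hne
          rw [hk1] at hh
          exact hh
      rw [← hk1', this]
  have : cnt (HD Y) (f m) = T.card := rfl
  rw [this]
  refine hTS.trans ?_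
  rw [Finset.card_product]
  calc S.card * S.card ≤ (C * 2 ^ m) * (C * 2 ^ m) := Nat.mul_le_mul hS hS
    _ = C * C * 4 ^ m := by
      have : (4 : ℕ) ^ m = 2 ^ m * 2 ^ m := by rw [← mul_pow]; norm_num
      rw [this]; ring

/-- basic clopen set of a finite sequence (in the reversed coding of `PiNat.res`) -/
def cyl (s : List ℕ) : Set Baire := {ω | PiNat.res ω s.length = s}

lemma mem_cyl_res (ω : Baire) (N : ℕ) : ω ∈ cyl (PiNat.res ω N) := by
  simp [cyl]

lemma isOpen_cyl (s : List ℕ) : IsOpen (cyl s) := by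
  rw [isOpen_iff_mem_nhds]
  intro ω hω
  refine Filter.mem_of_superset ((PiNat.isOpen_cylinder _ ω s.length).mem_nhds
    (PiNat.self_mem_cylinder ω s.length)) ?_
  intro ω' hω'
  rw [PiNat.cylinder_eq_res] at hω'
  change PiNat.res ω' s.length = s
  have h1 : PiNat.res ω' s.length = PiNat.res ω s.length := hω'
  rw [h1]
  exact hω

lemma exists_cyl {U : Set Baire} (hU : IsOpen U) {ω : Baire} (hω : ω ∈ U) :
    ∃ s, ω ∈ cyl s ∧ cyl s ⊆ U := by
  obtain ⟨_, ⟨x, n, rfl⟩, h1, h2⟩ :=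
    (PiNat.isTopologicalBasis_cylinders (fun _ : ℕ => ℕ)).exists_subset_of_mem_open hω hU
  refine ⟨PiNat.res ω n, mem_cyl_res ω n, ?_⟩
  intro ω' hω'
  apply h2
  have h3 : PiNat.res ω' n = PiNat.res ω n := by simpa [cyl] using hω'
  rw [PiNat.cylinder_eq_res] at h1 ⊢
  exact h3.trans h1

/-- every closed set of positive measure has a closed subset all of whose nonempty relatively
open pieces have positive measure -/
lemma exists_support {K0 : Set Baire} (hK : IsClosed K0) (h0 : lam K0 ≠ 0) :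
    ∃ K ⊆ K0, IsClosed K ∧ K.Nonempty ∧ ∀ s, (K ∩ cyl s).Nonempty → lam (K ∩ cyl s) ≠ 0 := by
  set U : Set Baire := ⋃ s : {s : List ℕ // lam (K0 ∩ cyl s) = 0}, cyl s.1 with hU
  have hUo : IsOpen U := isOpen_iUnion fun s => isOpen_cyl _
  have hU0 : lam (K0 ∩ U) = 0 := by
    rw [hU, inter_iUnion]
    exact measure_iUnion_null fun s => s.2
  refine ⟨K0 \ U, diff_subset, hK.sdiff hUo, ?_, ?_⟩
  · rw [nonempty_iff_ne_empty]
    intro h
    apply h0
    refine measure_mono_null ?_ hU0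
    intro ω hω
    refine ⟨hω, ?_⟩
    by_contra h'
    have : ω ∈ K0 \ U := ⟨hω, h'⟩
    rw [h] at this
    exact this
  · rintro s ⟨ω, ⟨hω, hωU⟩, hωs⟩ h
    apply hωU
    refine mem_iUnion.2 ⟨⟨s, ?_⟩, hωs⟩
    refine measure_mono_null (t := (K0 \ U) ∩ cyl s ∪ K0 ∩ U) ?_ (measure_union_null h hU0)
    rintro ω' ⟨h1, h2⟩
    by_cases h3 : ω' ∈ U
    · exact Or.inr ⟨h1, h3⟩
    · exact Or.inl ⟨⟨h1, h3⟩, h2⟩

/-- Baire category in a closed subset of Baire space -/
lemma exists_cyl_subset {K : Set Baire} (hK : IsClosed K) (hne : K.Nonempty) (E : ℕ → Set Baire)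
    (hE : ∀ n, IsClosed (E n)) (hcov : K ⊆ ⋃ n, E n) :
    ∃ n s, (K ∩ cyl s).Nonempty ∧ K ∩ cyl s ⊆ E n := by
  have : PolishSpace K := hK.polishSpace
  have : Nonempty K := hne.to_subtype
  letI := TopologicalSpace.upgradeIsCompletelyMetrizable K
  obtain ⟨n, x, hx⟩ := nonempty_interior_of_iUnion_of_closed
    (X := K) (f := fun n => Subtype.val ⁻¹' (E n))
    (fun n => (hE n).preimage continuous_subtype_val) (by
      ext x
      simp only [mem_iUnion, mem_preimage, mem_univ, iff_true]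
      exact mem_iUnion.1 (hcov x.2))
  rw [mem_interior] at hx
  obtain ⟨V, hV1, hV2, hV3⟩ := hx
  obtain ⟨W, hW, rfl⟩ := isOpen_induced_iff.1 hV2
  obtain ⟨s, hs1, hs2⟩ := exists_cyl hW hV3
  refine ⟨n, s, ⟨x.1, x.2, hs1⟩, ?_⟩
  rintro y ⟨hy1, hy2⟩
  exact hV1 (show (⟨y, hy1⟩ : K) ∈ _ from hs2 hy2)

theorem rapid_of_null {A : Set Baire} {f : ℕ → ℕ} (hf : Monotone f)
    (h : lam {ω | ∃ x ∈ A, ω ∈ NN f x} = 0) : ∃ a ∈ FA A, ∀ m, cnt a (f m) ≤ 16 ^ m := by
  classical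
  set Z : Set Baire := {ω | ∃ x ∈ A, ω ∈ NN f x} with hZ
  obtain ⟨K0, hK0Z, hK0c, hK0⟩ : ∃ K0 ⊆ (toMeasurable lam Z)ᶜ, IsClosed K0 ∧ lam K0 ≠ 0 := by
    apply exists_closed (measurableSet_toMeasurable lam Z).compl.nullMeasurableSet
    rw [prob_compl_eq_one_sub (measurableSet_toMeasurable lam Z), measure_toMeasurable, h,
      tsub_zero]
    exact one_ne_zero
  obtain ⟨K, hKK0, hKc, hKne, hKs⟩ := exists_support hK0c hK0
  let Y : ℕ × List ℕ → Set Baire := fun p =>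
    {x | (K ∩ cyl p.2).Nonempty ∧ ∀ ω ∈ K ∩ cyl p.2, ∀ m, p.1 ≤ m → ω (cod f m x) < m}
  have hcov : ∀ x ∈ A, ∃ p, x ∈ Y p := by
    intro x hx
    have hc1 : ∀ n, IsClosed {ω : Baire | ∀ m, n ≤ m → ω (cod f m x) < m} := by
      intro n
      have : {ω : Baire | ∀ m, n ≤ m → ω (cod f m x) < m} =
          ⋂ m, ⋂ (_ : n ≤ m), (fun ω : Baire => ω (cod f m x)) ⁻¹' {k | k < m} := by
        ext ω; simp
      rw [this]
      refine isClosed_iInter fun m => isClosed_iInter fun _ => ?_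
      exact (isClosed_discrete _).preimage (continuous_apply _)
    have hc2 : K ⊆ ⋃ n, {ω : Baire | ∀ m, n ≤ m → ω (cod f m x) < m} := by
      intro ω hω
      have h1 : ω ∉ Z := fun h' => hK0Z (hKK0 hω) (subset_toMeasurable lam Z h')
      have h2 : ω ∉ NN f x := fun h' => h1 ⟨x, hx, h'⟩
      change ¬ ∃ᶠ m in atTop, m ≤ ω (cod f m x) at h2
      rw [not_frequently, eventually_atTop] at h2
      obtain ⟨n, hn⟩ := h2
      exact mem_iUnion.2 ⟨n, fun m hm => not_le.1 (hn m hm)⟩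
    obtain ⟨n, s, h1, h2⟩ := exists_cyl_subset hKc hKne _ hc1 hc2
    exact ⟨(n, s), h1, fun ω hω => h2 hω⟩
  refine rapid_combine hf (fun j => Y (Denumerable.ofNat (ℕ × List ℕ) j)) ?_ ?_
  · intro x hx
    obtain ⟨p, hp⟩ := hcov x hx
    refine mem_iUnion.2 ⟨Encodable.encode p, ?_⟩
    rwa [Denumerable.ofNat_encode]
  · intro j
    obtain ⟨n, s⟩ := Denumerable.ofNat (ℕ × List ℕ) j
    by_cases hne : (K ∩ cyl s).Nonempty
    · have hpos : 0 < lam (K ∩ cyl s) := pos_iff_ne_zero.2 (hKs s hne)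
      obtain ⟨C, hC⟩ : ∃ C : ℕ, ENNReal.ofReal (Real.exp (-C)) < lam (K ∩ cyl s) := by
        have h1 : Tendsto (fun C : ℕ => ENNReal.ofReal (Real.exp (-(C : ℝ)))) atTop (𝓝 0) := by
          rw [← ENNReal.ofReal_zero]
          refine (ENNReal.continuous_ofReal.tendsto 0).comp ?_
          exact Real.tendsto_exp_neg_atTop_nhds_zero.comp tendsto_natCast_atTop_atTop
        exact ((tendsto_order.1 h1).2 _ hpos).exists
      refine ⟨n, C * C, fun m hm => ?_⟩
      have : Y (n, s) = {x | ∀ ω ∈ K ∩ cyl s, ∀ m, n ≤ m → ω (cod f m x) < m} := by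
        ext x
        exact ⟨fun h => h.2, fun h => ⟨hne, h⟩⟩
      rw [this]
      exact cnt_HD hC m hm
    · refine ⟨0, 0, fun m _ => ?_⟩
      rw [zero_mul, Nat.le_zero]
      apply cnt_eq_zero
      rintro k ⟨x, hx, -⟩
      exact absurd hx.1 hne

end H97Proj
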