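import Pool.Agent.Lib.H97Proj.Meas

/-!
A rapid filter, seen through `ω ↦ {k | ω k ∈ Q}`, meets every closed set of positive measure.
-/

namespace H97Proj

open MeasureTheory Set Topology Filter ProbabilityTheory
open scoped ENNReal

/-- the part of the open set `O` decided by the first `N` coordinates -/
def dec (O : Set Baire) (N : ℕ) : Set Baire := {ω | PiNat.cylinder ω N ⊆ O}

lemma dec_subset (O : Set Baire) (N : ℕ) : dec O N ⊆ O :=
  fun ω h => h (PiNat.self_mem_cylinder ω N)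

lemma dec_mono (O : Set Baire) : Monotone (dec O) :=
  fun _ _ hmn ω h => (PiNat.cylinder_anti ω hmn).trans h

lemma dec_dep {O : Set Baire} {N : ℕ} {ω ω' : Baire} (h : ∀ k < N, ω k = ω' k)
    (hω : ω ∈ dec O N) : ω' ∈ dec O N := by
  have : PiNat.cylinder ω' N = PiNat.cylinder ω N := by
    rw [← PiNat.mem_cylinder_iff_eq, PiNat.mem_cylinder_iff]
    exact fun i hi => (h i hi).symm
  change PiNat.cylinder ω' N ⊆ O
  rw [this]
  exact hω

lemma isOpen_dec (O : Set Baire) (N : ℕ) : IsOpen (dec O N) := by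
  rw [isOpen_iff_mem_nhds]
  intro ω hω
  refine Filter.mem_of_superset ((PiNat.isOpen_cylinder _ ω N).mem_nhds
    (PiNat.self_mem_cylinder ω N)) ?_
  intro ω' hω'
  exact dec_dep (fun k hk => (PiNat.mem_cylinder_iff.1 hω' k hk).symm) hω

lemma exists_dec {O : Set Baire} (hO : IsOpen O) {ω : Baire} (hω : ω ∈ O) :
    ∃ N, ω ∈ dec O N := by
  obtain ⟨_, ⟨x, n, rfl⟩, h1, h2⟩ :=
    (PiNat.isTopologicalBasis_cylinders (fun _ : ℕ => ℕ)).exists_subset_of_mem_open hω hO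
  refine ⟨n, ?_⟩
  change PiNat.cylinder ω n ⊆ O
  rwa [PiNat.mem_cylinder_iff_eq.1 h1]

lemma tendsto_dec {O : Set Baire} (hO : IsOpen O) :
    Tendsto (fun N => lam (O \ dec O N)) atTop (𝓝 0) := by
  have h1 : ⋂ N, (O \ dec O N) = ∅ := by
    rw [eq_empty_iff_forall_notMem]
    intro ω hω
    rw [mem_iInter] at hω
    obtain ⟨N, hN⟩ := exists_dec hO (hω 0).1
    exact (hω N).2 hN
  have h2 := tendsto_measure_iInter_atTop (μ := lam) (s := fun N => O \ dec O N)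
    (fun N => (hO.measurableSet.diff (isOpen_dec O N).measurableSet).nullMeasurableSet)
    (fun m n hmn => diff_subset_diff_right (dec_mono O hmn)) ⟨0, measure_ne_top _ _⟩
  rwa [h1, measure_empty] at h2

lemma le_of_quarter {c : ℕ} {x y g : ℝ≥0∞} (hg : (4 : ℝ≥0∞)⁻¹ ≤ g) {r : ℕ} (hr : r ≤ c)
    (h : g ^ r * x ≤ y) : x ≤ 4 ^ c * y := by
  have h1 : ((4 : ℝ≥0∞)⁻¹) ^ c ≤ g ^ r :=
    (pow_le_pow_right_of_le_one' (by norm_num) hr).trans (pow_le_pow_left' hg r)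
  have h2 : ((4 : ℝ≥0∞)⁻¹) ^ c * x ≤ y := (mul_le_mul_left h1 x).trans h
  have h3 : (4 : ℝ≥0∞) ^ c * (((4 : ℝ≥0∞)⁻¹) ^ c * x) = x := by
    rw [← mul_assoc, ← mul_pow, ENNReal.mul_inv_cancel (by norm_num) (by norm_num), one_pow,
      one_mul]
  rw [← h3]
  exact mul_le_mul_right h2 _

theorem rapid_hit (F : Set (Set ℕ))
    (hrap : ∀ f : ℕ → ℕ, Monotone f → ∃ a ∈ F, ∀ m, cnt a (f m) ≤ 16 ^ m)
    (hdel : ∀ a ∈ F, ∀ N, {k | k ∈ a ∧ N ≤ k} ∈ F)
    (q : ℕ) (hq : (4 : ℝ≥0∞)⁻¹ ≤ geo {q})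
    (K : Set Baire) (hK : IsClosed K) (hK0 : lam K ≠ 0) :
    ∃ a ∈ F, ∃ ω, subst a q ω ∈ K := by
  set O : Set Baire := Kᶜ with hOdef
  have hO : IsOpen O := hK.isOpen_compl
  set δ : ℝ≥0∞ := lam K with hδ
  have hδt : δ ≠ ∞ := measure_ne_top _ _
  let ε : ℕ → ℝ≥0∞ := fun m => δ * (4 ^ (16 ^ (m + 1)))⁻¹ * 2⁻¹ ^ (m + 2)
  have hε : ∀ m, 0 < ε m := by
    intro m
    refine pos_iff_ne_zero.2 (mul_ne_zero (mul_ne_zero hK0 ?_) ?_)
    · exact ENNReal.inv_ne_zero.2 (ENNReal.pow_ne_top (by norm_num))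
    · exact pow_ne_zero _ (by norm_num)
  have hev : ∀ m, ∀ᶠ N in atTop, lam (O \ dec O N) ≤ ε m := by
    intro m
    exact ((tendsto_order.1 (tendsto_dec hO)).2 _ (hε m)).mono fun N h => h.le
  obtain ⟨f, hf, hfε⟩ := extraction_forall_of_eventually hev
  obtain ⟨a, haF, ha⟩ := hrap f hf.monotone
  set a' : Set ℕ := {k | k ∈ a ∧ f 0 ≤ k} with ha'
  have ha'F : a' ∈ F := hdel a haF _
  refine ⟨a', ha'F, ?_⟩
  by_contra hcon
  push Not at hcon
  have hall : subst a' q ⁻¹' O = univ := by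
    ext ω
    simpa [hOdef] using hcon ω
  have hcard0 : cnt a' (f 0) = 0 := cnt_eq_zero fun k hk => hk.2
  have hcard : ∀ m, cnt a' (f (m + 1)) ≤ 16 ^ (m + 1) :=
    fun m => (cnt_mono (fun k hk => hk.1) _).trans (ha (m + 1))
  have hOeq : O ⊆ dec O (f 0) ∪ ⋃ m, (dec O (f (m + 1)) \ dec O (f m)) := by
    classical
    intro ω hω
    obtain ⟨N, hN⟩ := exists_dec hO hω
    have hex : ∃ m, ω ∈ dec O (f m) := ⟨N, dec_mono O (hf.id_le N) hN⟩
    have hmin := Nat.find_spec hex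
    rcases hm : Nat.find hex with _ | m
    · left; rwa [hm] at hmin
    · right
      rw [mem_iUnion]
      refine ⟨m, ?_, ?_⟩
      · rwa [hm] at hmin
      · exact Nat.find_min hex (by omega)
  have h0 : lam (subst a' q ⁻¹' dec O (f 0)) ≤ lam O := by
    have := subst_measure a' q (f 0) (E := dec O (f 0)) (fun ω ω' h hω => dec_dep h hω)
    rw [hcard0, pow_zero, one_mul] at this
    exact this.trans (measure_mono (dec_subset _ _))
  have h1 : ∀ m, lam (subst a' q ⁻¹' (dec O (f (m + 1)) \ dec O (f m))) ≤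
      δ * 2⁻¹ ^ (m + 2) := by
    intro m
    have h2 := subst_measure a' q (f (m + 1)) (E := dec O (f (m + 1)) \ dec O (f m))
      (fun ω ω' h hω => ⟨dec_dep h hω.1, fun h' => hω.2 (dec_dep (fun k hk =>
        (h k (hk.trans (hf (Nat.lt_succ_self m)))).symm) h')⟩)
    have h3 := le_of_quarter hq (hcard m) h2
    refine h3.trans ?_
    have h4 : lam (dec O (f (m + 1)) \ dec O (f m)) ≤ ε m :=
      (measure_mono (diff_subset_diff_left (dec_subset _ _))).trans (hfε m)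
    refine (mul_le_mul_right h4 _).trans ?_
    have h5 : (4 : ℝ≥0∞) ^ (16 ^ (m + 1)) * (4 ^ (16 ^ (m + 1)))⁻¹ = 1 :=
      ENNReal.mul_inv_cancel (by positivity) (ENNReal.pow_ne_top (by norm_num))
    calc (4 : ℝ≥0∞) ^ (16 ^ (m + 1)) * ε m
        = ((4 : ℝ≥0∞) ^ (16 ^ (m + 1)) * (4 ^ (16 ^ (m + 1)))⁻¹) * (δ * 2⁻¹ ^ (m + 2)) := by
          simp only [ε]; ring
      _ = δ * 2⁻¹ ^ (m + 2) := by rw [h5, one_mul]
      _ ≤ _ := le_rfl
  have h2 : ∑' m : ℕ, δ * (2 : ℝ≥0∞)⁻¹ ^ (m + 2) = δ * 2⁻¹ := by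
    rw [ENNReal.tsum_mul_left]
    congr 1
    have : ∀ m : ℕ, (2 : ℝ≥0∞)⁻¹ ^ (m + 2) = 2⁻¹ * 2⁻¹ ^ (m + 1) := fun m => by ring
    simp only [this]
    rw [ENNReal.tsum_mul_left, ENNReal.tsum_geometric_add_one, ENNReal.one_sub_inv_two, inv_inv,
      ENNReal.inv_mul_cancel (by norm_num) (by norm_num), mul_one]
  have h3 : (1 : ℝ≥0∞) ≤ lam O + δ * 2⁻¹ := by
    calc (1 : ℝ≥0∞) = lam (subst a' q ⁻¹' O) := by rw [hall, measure_univ]
      _ ≤ lam (subst a' q ⁻¹' dec O (f 0) ∪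
            ⋃ m, subst a' q ⁻¹' (dec O (f (m + 1)) \ dec O (f m))) := by
          apply measure_mono
          intro ω hω
          rcases hOeq hω with h | h
          · left; exact h
          · right
            rw [mem_iUnion] at h ⊢
            exact h
      _ ≤ lam O + ∑' m, δ * 2⁻¹ ^ (m + 2) :=
          (measure_union_le _ _).trans (add_le_add h0
            ((measure_iUnion_le _).trans (ENNReal.tsum_le_tsum h1)))
      _ = _ := by rw [h2]
  have h4 : lam O + δ = 1 := by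
    rw [hOdef, add_comm, hδ]
    exact prob_add_prob_compl hK.measurableSet
  have h5 : δ * 2⁻¹ < δ := by
    have := ENNReal.half_lt_self hK0 hδt
    rwa [div_eq_mul_inv] at this
  have h6 : lam O + δ * 2⁻¹ < lam O + δ :=
    (ENNReal.add_lt_add_iff_left (measure_ne_top _ _)).2 h5
  rw [h4] at h6
  exact absurd h3 (not_le.2 h6)

end H97Proj
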