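import Pool.Agent.Lib.H97Proj.Defs

/-!
The Baire property and uniformization give the Hurewicz dichotomy: meager sets attached to reals.
-/

namespace H97Proj

open Set Topology Filter

/-- monotone envelope -/
def env (x : Baire) (n : ℕ) : ℕ := n + ∑ i ∈ Finset.range (n + 1), x i

/-- The meager set attached to `x`. -/
def MM (x : Baire) : Set Baire :=
  {z | ∃ N, ∀ n, N ≤ n → ∃ i, n ≤ i ∧ i ≤ env x n ∧ z i ≠ 0}

lemma MM_mono {x y : Baire} (h : ∀ n, x n ≤ y n) : MM x ⊆ MM y := by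
  rintro z ⟨N, hN⟩
  refine ⟨N, fun n hn => ?_⟩
  obtain ⟨i, h1, h2, h3⟩ := hN n hn
  refine ⟨i, h1, h2.trans ?_, h3⟩
  unfold env
  have := Finset.sum_le_sum (s := Finset.range (n + 1)) (fun i _ => h i)
  omega

lemma isOpen_coord (i : ℕ) (Q : Set ℕ) : IsOpen {z : Baire | z i ∈ Q} :=
  (isOpen_discrete Q).preimage (continuous_apply i)

lemma isClosed_coord (i : ℕ) (Q : Set ℕ) : IsClosed {z : Baire | z i ∈ Q} :=
  (isClosed_discrete Q).preimage (continuous_apply i)

lemma exists_cylinder {U : Set Baire} (hU : IsOpen U) {ω : Baire} (hω : ω ∈ U) :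
    ∃ N, PiNat.cylinder ω N ⊆ U := by
  obtain ⟨_, ⟨x, n, rfl⟩, h1, h2⟩ :=
    (PiNat.isTopologicalBasis_cylinders (fun _ : ℕ => ℕ)).exists_subset_of_mem_open hω hU
  refine ⟨n, ?_⟩
  rwa [PiNat.mem_cylinder_iff_eq.1 h1]

lemma isMeagre_MM (x : Baire) : IsMeagre (MM x) := by
  have h1 : MM x = ⋃ N : ℕ, {z | ∀ n, N ≤ n → ∃ i, n ≤ i ∧ i ≤ env x n ∧ z i ≠ 0} := by
    ext z; simp [MM]
  rw [h1]
  refine isMeagre_iUnion fun N => IsNowhereDense.isMeagre ?_
  have hc : IsClosed {z : Baire | ∀ n, N ≤ n → ∃ i, n ≤ i ∧ i ≤ env x n ∧ z i ≠ 0} := by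
    have h2 : {z : Baire | ∀ n, N ≤ n → ∃ i, n ≤ i ∧ i ≤ env x n ∧ z i ≠ 0} =
        ⋂ n, ⋂ (_ : N ≤ n), ⋃ i ∈ Finset.Icc n (env x n), {z : Baire | z i ∈ ({0}ᶜ : Set ℕ)} := by
      ext z
      simp only [mem_setOf_eq, mem_iInter, mem_iUnion, Finset.mem_Icc, mem_compl_iff,
        mem_singleton_iff, exists_prop, and_assoc]
    rw [h2]
    exact isClosed_iInter fun n => isClosed_iInter fun _ =>
      isClosed_biUnion_finset fun i _ => isClosed_coord i _
  rw [hc.isNowhereDense_iff, eq_empty_iff_forall_notMem]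
  intro ω hω
  obtain ⟨L, hL⟩ := exists_cylinder isOpen_interior hω
  let z : Baire := fun i => if i < L then ω i else 0
  have hz : z ∈ PiNat.cylinder ω L := by
    rw [PiNat.mem_cylinder_iff]
    intro i hi
    simp [z, hi]
  obtain ⟨i, h3, -, h5⟩ := interior_subset (hL hz) (max N L) (le_max_left _ _)
  apply h5
  have : ¬ i < L := by
    have := le_max_right N L
    omega
  simp [z, this]

lemma exists_dense_seq {s : Set Baire} (hs : s ∈ residual Baire) :
    ∃ O : ℕ → Set Baire, (∀ n, IsOpen (O n)) ∧ (∀ n, Dense (O n)) ∧ Antitone O ∧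
      ⋂ n, O n ⊆ s := by
  obtain ⟨t, hts, htG, htd⟩ := mem_residual.1 hs
  obtain ⟨f, hf, rfl⟩ := isGδ_iff_eq_iInter_nat.1 htG
  refine ⟨fun n => ⋂ i ∈ Finset.range (n + 1), f i, fun n => ?_, fun n => ?_, ?_, ?_⟩
  · exact isOpen_biInter_finset fun i _ => hf i
  · refine htd.mono ?_
    intro x hx
    rw [mem_iInter] at hx
    simp only [mem_iInter]
    exact fun i _ => hx i
  · intro m n hmn x hx
    simp only [mem_iInter, Finset.mem_range] at hx ⊢
    exact fun i hi => hx i (by omega)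
  · refine Subset.trans ?_ hts
    intro x hx
    simp only [mem_iInter, Finset.mem_range] at hx ⊢
    exact fun i => hx i i (by omega)

/-- If `x` escapes a certain `x0` infinitely often, then `MM x` meets the dense G_delta set. -/
theorem exists_bound (O : ℕ → Set Baire) (hO : ∀ n, IsOpen (O n)) (hd : ∀ n, Dense (O n))
    (hanti : Antitone O) :
    ∃ x0 : Baire, ∀ x : Baire, (∃ᶠ n in atTop, x0 n < x n) → ∃ z ∈ MM x, ∀ n, z ∈ O n := by
  classical
  have hex : ∀ (n : ℕ) (v : Fin n → Fin (n + 1)), ∃ (w : Baire) (L : ℕ),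
      (∀ (i : ℕ) (hi : i < n), w i = v ⟨i, hi⟩) ∧ PiNat.cylinder w L ⊆ O n := by
    intro n v
    let t : Baire := fun i => if h : i < n then v ⟨i, h⟩ else 0
    obtain ⟨w, hw1, hw2⟩ := (hd n).inter_open_nonempty _ (PiNat.isOpen_cylinder _ t n)
      ⟨t, PiNat.self_mem_cylinder t n⟩
    obtain ⟨L, hL⟩ := exists_cylinder (hO n) hw2
    refine ⟨w, L, fun i hi => ?_, hL⟩
    rw [PiNat.mem_cylinder_iff] at hw1
    rw [hw1 i hi]
    simp [t, hi]
  choose W L hW hL using hex
  refine ⟨fun n => ∑ v, L n v, fun x hx => ?_⟩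
  rw [frequently_atTop] at hx
  let σ : Type := {p : Baire × ℕ // ∀ i, p.2 ≤ i → p.1 i = 1}
  have hstep : ∀ (j : ℕ) (p : σ), ∃ q : σ, p.1.2 < q.1.2 ∧ (∀ i ≤ p.1.2, q.1.1 i = p.1.1 i) ∧
      PiNat.cylinder q.1.1 q.1.2 ⊆ O j ∧
      ∀ n, p.1.2 ≤ n → n ≤ q.1.2 → ∃ i, n ≤ i ∧ i ≤ env x n ∧ i ≤ q.1.2 ∧ q.1.1 i ≠ 0 := by
    rintro j ⟨⟨w, N⟩, hwN⟩
    simp only at hwN ⊢
    obtain ⟨b, hb⟩ : ∃ b, ∀ i, w i ≤ b := by
      refine ⟨1 + ∑ i ∈ Finset.range N, w i, fun i => ?_⟩
      by_cases hi : i < N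
      · have := Finset.single_le_sum (f := w) (fun _ _ => Nat.zero_le _) (Finset.mem_range.2 hi)
        omega
      · rw [hwN i (by omega)]
        omega
    obtain ⟨n, hn, hxn⟩ := hx (N + 1 + b + j)
    let v : Fin n → Fin (n + 1) := fun i => ⟨w i, by have := hb i; omega⟩
    have hLn : L n v < x n := lt_of_le_of_lt
      (Finset.single_le_sum (f := fun v => L n v) (fun _ _ => Nat.zero_le _)
        (Finset.mem_univ v)) hxn
    let w' : Baire := fun i => if i < max (L n v) n then W n v i else 1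
    have hw'1 : ∀ i < n, w' i = w i := by
      intro i hi
      have h1 : i < max (L n v) n := lt_of_lt_of_le hi (le_max_right _ _)
      simp only [w', h1, if_true]
      rw [hW n v i hi]
    have hw'2 : ∀ i, max (L n v) n ≤ i → w' i = 1 := by
      intro i hi
      have h1 : ¬ i < max (L n v) n := not_lt.2 hi
      simp only [w', h1, if_false]
    refine ⟨⟨(w', max (L n v) n), hw'2⟩, ?_, ?_, ?_, ?_⟩
    · have := le_max_right (L n v) n
      simp only
      omega
    · intro i hi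
      exact hw'1 i (by omega)
    · refine Subset.trans ?_ ((hL n v).trans (hanti (by omega : j ≤ n)))
      intro z hz
      rw [PiNat.mem_cylinder_iff] at hz ⊢
      intro i hi
      have h1 : i < max (L n v) n := lt_of_lt_of_le hi (le_max_left _ _)
      rw [hz i h1]
      simp only [w', h1, if_true]
    · intro n' h1 h2
      simp only at h2 ⊢
      by_cases hn' : n' < n
      · refine ⟨n', le_rfl, by unfold env; omega, h2, ?_⟩
        rw [hw'1 n' hn', hwN n' h1]
        exact one_ne_zero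
      · refine ⟨max (L n v) n, h2, ?_, le_rfl, ?_⟩
        · unfold env
          have h3 := Finset.single_le_sum (f := x) (s := Finset.range (n' + 1))
            (fun _ _ => Nat.zero_le _) (Finset.mem_range.2 (by omega : n < n' + 1))
          rw [max_le_iff]
          constructor <;> omega
        · rw [hw'2 _ le_rfl]
          exact one_ne_zero
  choose next hn1 hn2 hn3 hn4 using hstep
  let sq : ℕ → σ := fun j => Nat.rec (⟨(fun _ => 1, 0), fun _ _ => rfl⟩ : σ) (fun j p => next j p) j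
  have hsq : ∀ j, sq (j + 1) = next j (sq j) := fun j => rfl
  have hlt : ∀ j, (sq j).1.2 < (sq (j + 1)).1.2 := fun j => by rw [hsq]; exact hn1 _ _
  have hmono : StrictMono fun j => (sq j).1.2 := strictMono_nat_of_lt_succ hlt
  have hge : ∀ j, j ≤ (sq j).1.2 := fun j => hmono.id_le j
  have hagree : ∀ j l, j ≤ l → ∀ i ≤ (sq j).1.2, (sq l).1.1 i = (sq j).1.1 i := by
    intro j l hjl
    induction l, hjl using Nat.le_induction with
    | base => exact fun _ _ => rfl
    | succ l hjl ih =>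
      intro i hi
      rw [← ih i hi, hsq]
      exact hn2 l (sq l) i (hi.trans (hmono.monotone hjl))
  let z : Baire := fun i => (sq i).1.1 i
  have hz : ∀ j, ∀ i ≤ (sq j).1.2, z i = (sq j).1.1 i := by
    intro j i hi
    rcases le_total j i with h | h
    · exact hagree j i h i hi
    · exact (hagree i j h i (hge i)).symm
  refine ⟨z, ⟨0, fun n _ => ?_⟩, fun j => ?_⟩
  · have hexj : ∃ j, n < (sq j).1.2 := ⟨n + 1, lt_of_lt_of_le (Nat.lt_succ_self n) (hge _)⟩
    have h1 := Nat.find_spec hexj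
    have h0 : (sq 0).1.2 = 0 := rfl
    rcases hj : Nat.find hexj with _ | j
    · rw [hj, h0] at h1
      omega
    · rw [hj] at h1
      have h2 : (sq j).1.2 ≤ n := not_lt.1 (Nat.find_min hexj (by omega))
      obtain ⟨i, h3, h4, h5, h6⟩ := hn4 j (sq j) n h2 (by rw [← hsq]; exact h1.le)
      refine ⟨i, h3, h4, ?_⟩
      rw [← hsq] at h5 h6
      rwa [hz (j + 1) i h5]
  · apply hn3 j (sq j)
    rw [← hsq, PiNat.mem_cylinder_iff]
    intro i hi
    exact hz (j + 1) i hi.le

end H97Proj
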