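import Pool.Agent.Lib.H97Proj.Hur

/-!
The Baire property and uniformization give the Hurewicz dichotomy: construction of closed copies
of Baire space.
-/

namespace H97Proj

open Set Topology Filter

/-- The abstract scheme: `G` is a nonempty set, `phi` a map on `G`, and each basic piece of `G`
has infinitely many values at some coordinate. -/
theorem exists_scheme (G V : Set Baire) (O : ℕ → Set Baire) (φ : Baire → Baire)
    (hVO : ∀ z, z ∈ V → (∀ m, z ∈ O m) → z ∈ G) (hne : G.Nonempty) (hGV : G ⊆ V)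
    (hV : IsOpen V) (hO : ∀ m, IsOpen (O m)) (hGO : ∀ m, G ⊆ O m)
    (hcont : ∀ z ∈ G, ∀ i, ∃ N, ∀ z' ∈ G, z' ∈ PiNat.cylinder z N → φ z' i = φ z i)
    (hinf : ∀ w N, w ∈ G → PiNat.cylinder w N ⊆ V →
      ∃ l, ((fun z => φ z l) '' (G ∩ PiNat.cylinder w N)).Infinite) :
    ∃ f : Baire → Baire, IsClosedEmbedding f ∧ ∀ y, ∃ z ∈ G, φ z = f y := by
  classical
  let St : Type := {p : Baire × ℕ // p.1 ∈ G ∧ PiNat.cylinder p.1 p.2 ⊆ V}
  let cy : St → Set Baire := fun p => PiNat.cylinder p.1.1 p.1.2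
  -- a common modulus for finitely many coordinates
  have hcont' : ∀ z ∈ G, ∀ m, ∃ N, ∀ z' ∈ G, z' ∈ PiNat.cylinder z N →
      ∀ i ≤ m, φ z' i = φ z i := by
    intro z hz m
    choose N hN using hcont z hz
    refine ⟨∑ i ∈ Finset.range (m + 1), N i, fun z' hz' hc i hi => hN i z' hz' ?_⟩
    refine PiNat.cylinder_anti z ?_ hc
    exact Finset.single_le_sum (f := N) (fun _ _ => Nat.zero_le _)
      (Finset.mem_range.2 (Nat.lt_succ_of_le hi))
  have hstep : ∀ (m : ℕ) (p : St), ∃ (l : ℕ) (κ : ℕ → ℕ) (q : ℕ → St), Function.Injective κ ∧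
      ∀ i, cy (q i) ⊆ cy p ∧ cy (q i) ⊆ O m ∧ m ≤ (q i).1.2 ∧
        ∀ z ∈ G, z ∈ cy (q i) → φ z l = κ i ∧ ∀ n ≤ m, φ z n = φ (q i).1.1 n := by
    intro m p
    obtain ⟨l, hl⟩ := hinf p.1.1 p.1.2 p.2.1 p.2.2
    let κ : ℕ → ℕ := fun i => (hl.natEmbedding _ i : ℕ)
    have hκ : Function.Injective κ := fun a b h =>
      (hl.natEmbedding _).injective (Subtype.ext h)
    have hκm : ∀ i, ∃ z, (z ∈ G ∧ z ∈ cy p) ∧ φ z l = κ i := fun i => (hl.natEmbedding _ i).2
    choose z hz using hκm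
    have hq : ∀ i, ∃ q : St, cy q ⊆ cy p ∧ cy q ⊆ O m ∧ m ≤ q.1.2 ∧
        ∀ z ∈ G, z ∈ cy q → φ z l = κ i ∧ ∀ n ≤ m, φ z n = φ q.1.1 n := by
      intro i
      obtain ⟨⟨hzG, hzp⟩, hzl⟩ := hz i
      obtain ⟨N1, hN1⟩ := exists_cylinder (hO m) (hGO m hzG)
      obtain ⟨N2, hN2⟩ := hcont' (z i) hzG m
      obtain ⟨N3, hN3⟩ := hcont (z i) hzG l
      obtain ⟨N4, hN4⟩ := exists_cylinder (PiNat.isOpen_cylinder _ p.1.1 p.1.2) hzp
      let N := N1 + N2 + N3 + N4 + m
      have hsub : PiNat.cylinder (z i) N ⊆ cy p :=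
        (PiNat.cylinder_anti _ (by omega : N4 ≤ N)).trans hN4
      refine ⟨⟨(z i, N), hzG, hsub.trans p.2.2⟩, hsub, ?_, ?_, ?_⟩
      · exact (PiNat.cylinder_anti _ (by omega : N1 ≤ N)).trans hN1
      · change m ≤ N
        omega
      · intro z' hz' hc
        constructor
        · rw [hN3 z' hz' (PiNat.cylinder_anti _ (by omega : N3 ≤ N) hc), hzl]
        · exact hN2 z' hz' (PiNat.cylinder_anti _ (by omega : N2 ≤ N) hc)
    choose q hq using hq
    exact ⟨l, κ, q, hκ, hq⟩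
  choose l κ q hκ hq using hstep
  obtain ⟨w0, hw0⟩ := hne
  obtain ⟨N0, hN0⟩ := exists_cylinder hV (hGV hw0)
  let st : List ℕ → St := fun s => List.rec ⟨(w0, N0), hw0, hN0⟩ (fun i s p => q s.length p i) s
  have hst : ∀ i s, st (i :: s) = q s.length (st s) i := fun _ _ => rfl
  let P : Baire → ℕ → St := fun y m => st (PiNat.res y m)
  have hP : ∀ y m, P y (m + 1) = q m (P y m) (y m) := by
    intro y m
    change st (PiNat.res y (m + 1)) = _
    rw [PiNat.res_succ, hst, PiNat.res_length]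
  have hdec : ∀ y m m', m ≤ m' → cy (P y m') ⊆ cy (P y m) := by
    intro y m m' h
    induction m', h using Nat.le_induction with
    | base => exact Subset.rfl
    | succ m' _ ih =>
      rw [hP]
      exact (hq m' (P y m') (y m')).1.trans ih
  have hPO : ∀ y m, cy (P y (m + 1)) ⊆ O m := by
    intro y m
    rw [hP]
    exact (hq m (P y m) (y m)).2.1
  have hPN : ∀ y m, m ≤ (P y (m + 1)).1.2 := by
    intro y m
    rw [hP]
    exact (hq m (P y m) (y m)).2.2.1
  have hself : ∀ y m, (P y m).1.1 ∈ cy (P y m) := fun y m => PiNat.self_mem_cylinder _ _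
  let lim : Baire → Baire := fun y i => (P y (i + 2)).1.1 i
  have hlim : ∀ y m, lim y ∈ cy (P y m) := by
    intro y m
    change lim y ∈ PiNat.cylinder (P y m).1.1 (P y m).1.2
    rw [PiNat.mem_cylinder_iff]
    intro i hi
    rcases le_total m (i + 2) with h | h
    · have h1 := hdec y m (i + 2) h (hself y (i + 2))
      exact PiNat.mem_cylinder_iff.1 h1 i hi
    · have h1 := hdec y (i + 2) m h (hself y m)
      have h2 : i + 1 ≤ (P y (i + 2)).1.2 := hPN y (i + 1)
      exact (PiNat.mem_cylinder_iff.1 h1 i (by omega)).symm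
  have hlimG : ∀ y, lim y ∈ G := by
    intro y
    apply hVO
    · exact (P y 0).2.2 (hlim y 0)
    · exact fun m => hPO y m (hlim y (m + 1))
  let f : Baire → Baire := fun y => φ (lim y)
  have hf1 : ∀ y m, f y (l m (P y m)) = κ m (P y m) (y m) := by
    intro y m
    have h1 := hlim y (m + 1)
    rw [hP] at h1
    exact ((hq m (P y m) (y m)).2.2.2 (lim y) (hlimG y) h1).1
  have hf2 : ∀ y m, ∀ n ≤ m, f y n = φ (P y (m + 1)).1.1 n := by
    intro y m n hn
    have h1 := hlim y (m + 1)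
    rw [hP] at h1 ⊢
    exact ((hq m (P y m) (y m)).2.2.2 (lim y) (hlimG y) h1).2 n hn
  have hPeq : ∀ y y' m, PiNat.res y m = PiNat.res y' m → P y m = P y' m := by
    intro y y' m h
    change st _ = st _
    rw [h]
  have hfc : Continuous f := by
    rw [continuous_pi_iff]
    intro n
    rw [continuous_iff_continuousAt]
    intro y
    refine (tendsto_const_nhds (x := f y n)).congr' ?_
    filter_upwards [(PiNat.isOpen_cylinder _ y (n + 1)).mem_nhds (PiNat.self_mem_cylinder y _)]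
      with y' hy'
    rw [PiNat.cylinder_eq_res] at hy'
    have h1 : PiNat.res y' (n + 1) = PiNat.res y (n + 1) := hy'
    rw [hf2 y n n le_rfl, hf2 y' n n le_rfl, hPeq y' y (n + 1) h1]
  have hfi : Function.Injective f := by
    intro y y' h
    have key : ∀ m, PiNat.res y m = PiNat.res y' m := by
      intro m
      induction m with
      | zero => rfl
      | succ m ih =>
        rw [PiNat.res_succ, PiNat.res_succ, ih]
        congr 1
        have e := hPeq y y' m ih
        have h1 := hf1 y m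
        have h2 := hf1 y' m
        rw [h, e, h2] at h1
        exact (hκ m _ h1).symm
    exact PiNat.res_injective (funext key)
  have hfcl : IsClosedMap f := by
    intro C hC
    apply IsSeqClosed.isClosed
    intro xs x hxs hx
    choose ys hys hyx using hxs
    have hcoord : ∀ n, ∀ᶠ j in atTop, f (ys j) n = x n := by
      intro n
      have h1 := (tendsto_pi_nhds.1 hx) n
      have h2 := (tendsto_pure.1 (by rwa [nhds_discrete] at h1 : Tendsto (fun j => xs j n) atTop
        (pure (x n))))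
      simpa [hyx] using h2
    have hres : ∀ m, ∃ s, ∀ᶠ j in atTop, PiNat.res (ys j) m = s := by
      intro m
      induction m with
      | zero => exact ⟨[], Eventually.of_forall fun _ => rfl⟩
      | succ m ih =>
        obtain ⟨s, hs⟩ := ih
        have h1 : ∀ᶠ j in atTop, PiNat.res (ys j) m = s ∧
            κ m (st s) (ys j m) = x (l m (st s)) := by
          filter_upwards [hs, hcoord (l m (st s))] with j h2 h3
          refine ⟨h2, ?_⟩
          have h4 := hf1 (ys j) m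
          have h5 : P (ys j) m = st s := by
            change st _ = _
            rw [h2]
          rw [h5] at h4
          rw [← h4, h3]
        obtain ⟨j0, hj0⟩ := h1.exists
        refine ⟨ys j0 m :: s, ?_⟩
        filter_upwards [h1] with j hj
        rw [PiNat.res_succ, hj.1]
        congr 1
        exact hκ m (st s) (hj.2.trans hj0.2.symm)
    have hev : ∀ m, ∃ i, ∀ᶠ j in atTop, ys j m = i := by
      intro m
      obtain ⟨s, hs⟩ := hres (m + 1)
      obtain ⟨j0, hj0⟩ := hs.exists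
      refine ⟨ys j0 m, ?_⟩
      filter_upwards [hs] with j hj
      rw [← hj0, PiNat.res_succ, PiNat.res_succ] at hj
      exact (List.cons_eq_cons.1 hj).1
    choose y hy using hev
    have hyt : Tendsto ys atTop (𝓝 y) := by
      rw [tendsto_pi_nhds]
      intro m
      exact (tendsto_const_nhds (x := y m)).congr' ((hy m).mono fun j h => h.symm)
    have hyC : y ∈ C := hC.mem_of_tendsto hyt (Eventually.of_forall hys)
    refine ⟨y, hyC, ?_⟩
    have h1 : Tendsto (fun j => f (ys j)) atTop (𝓝 (f y)) := (hfc.tendsto y).comp hyt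
    have h2 : Tendsto (fun j => f (ys j)) atTop (𝓝 x) := by
      have : (fun j => f (ys j)) = xs := funext hyx
      rwa [this]
    exact tendsto_nhds_unique h1 h2
  exact ⟨f, IsClosedEmbedding.of_continuous_injective_isClosedMap hfc hfi hfcl,
    fun y => ⟨lim y, hlimG y, rfl⟩⟩

/-- The abstract dichotomy, positive case: a Baire measurable uniformizing function of the
relation `z ∈ MM x` on a nonmeager set has a closed copy of Baire space in its range. -/
theorem exists_embedding (S : Set (Baire × Baire))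
    (hS : ∀ i j, BaireMeasurableSet {z | ∃ u : Baire, u i = j ∧ (z, u) ∈ S})
    (hfun : ∀ z u v, (z, u) ∈ S → (z, v) ∈ S → u = v)
    (hZ : ¬ IsMeagre {z | ∃ u, (z, u) ∈ S})
    (hM : ∀ z u, (z, u) ∈ S → z ∈ MM (lft u)) :
    ∃ f : Baire → Baire, IsClosedEmbedding f ∧ ∀ y, ∃ z u, (z, u) ∈ S ∧ lft u = f y := by
  classical
  have hU : ∀ i j, ∃ U : Set Baire, IsOpen U ∧
      {z | ∃ u : Baire, u i = j ∧ (z, u) ∈ S} =ᶠ[residual Baire] U := fun i j =>
    (hS i j).residualEq_isOpen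
  choose U hUo hUe using hU
  have hC : {z : Baire | ∀ i j, (∃ u : Baire, u i = j ∧ (z, u) ∈ S) ↔ z ∈ U i j} ∈
      residual Baire := by
    have h1 : ∀ᶠ z in residual Baire, ∀ i j, (∃ u : Baire, u i = j ∧ (z, u) ∈ S) ↔ z ∈ U i j := by
      rw [eventually_countable_forall]
      intro i
      rw [eventually_countable_forall]
      intro j
      have h2 := hUe i j
      filter_upwards [h2] with z hz
      exact iff_of_eq hz
    exact h1
  obtain ⟨O, hO, hOd, hOa, hOC⟩ := exists_dense_seq hC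
  have hOC' : ∀ z, (∀ m, z ∈ O m) → ∀ i j, (∃ u : Baire, u i = j ∧ (z, u) ∈ S) ↔ z ∈ U i j :=
    fun z hz => hOC (mem_iInter.2 hz)
  have hOres : {z | ∀ m, z ∈ O m} ∈ residual Baire := by
    have h1 : ∀ᶠ z in residual Baire, ∀ m, z ∈ O m := by
      rw [eventually_countable_forall]
      intro m
      exact residual_of_dense_open (hO m) (hOd m)
    exact h1
  obtain ⟨j0, hj0⟩ : ∃ j, (U 0 j).Nonempty := by
    by_contra hcon
    push Not at hcon
    apply hZ
    have h1 : {z | ∃ u, (z, u) ∈ S}ᶜ ∈ residual Baire := by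
      filter_upwards [hC] with z hz
      rintro ⟨u, hu⟩
      have h2 := (hz 0 (u 0)).1 ⟨u, rfl, hu⟩
      rw [hcon (u 0)] at h2
      exact h2
    exact h1
  let g : Baire → Baire := fun z => if h : ∃ u, (z, u) ∈ S then h.choose else 0
  have hg : ∀ z u, (z, u) ∈ S → g z = u := by
    intro z u h
    have h' : ∃ u, (z, u) ∈ S := ⟨u, h⟩
    simp only [g, dif_pos h']
    exact hfun z _ _ h'.choose_spec h
  set V : Set Baire := U 0 j0 with hV
  set G : Set Baire := {z | z ∈ V ∧ ∀ m, z ∈ O m} with hG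
  have hGS : ∀ z ∈ G, (z, g z) ∈ S := by
    rintro z ⟨h1, h2⟩
    obtain ⟨u, -, hu⟩ := (hOC' z h2 0 j0).2 h1
    rwa [hg z u hu]
  have hGU : ∀ z ∈ G, ∀ i, z ∈ U i (g z i) := fun z hz i =>
    (hOC' z hz.2 i _).1 ⟨g z, rfl, hGS z hz⟩
  have hUG : ∀ z ∈ G, ∀ i j, z ∈ U i j → g z i = j := by
    intro z hz i j h
    obtain ⟨u, h1, h2⟩ := (hOC' z hz.2 i j).2 h
    rw [hg z u h2]
    exact h1
  have a1 : G.Nonempty := by
    obtain ⟨z, h1, h2⟩ := (dense_of_mem_residual hOres).inter_open_nonempty _ (hUo 0 j0) hj0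
    exact ⟨z, h1, h2⟩
  have a2 : ∀ z ∈ G, ∀ i, ∃ N, ∀ z' ∈ G, z' ∈ PiNat.cylinder z N →
      lft (g z') i = lft (g z) i := by
    intro z hz i
    obtain ⟨N, hN⟩ := exists_cylinder (hUo (2 * i) (g z (2 * i))) (hGU z hz (2 * i))
    exact ⟨N, fun z' hz' hc => hUG z' hz' _ _ (hN hc)⟩
  have a3 : ∀ w N, w ∈ G → PiNat.cylinder w N ⊆ V →
      ∃ l, ((fun z => lft (g z) l) '' (G ∩ PiNat.cylinder w N)).Infinite := by
    intro w N hw hwV
    by_contra hcon
    simp only [not_exists, Set.not_infinite] at hcon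
    have h1 : ∀ l, ∃ b, ∀ z ∈ G ∩ PiNat.cylinder w N, lft (g z) l ≤ b := by
      intro l
      obtain ⟨b, hb⟩ := (hcon l).bddAbove
      exact ⟨b, fun z hz => hb (mem_image_of_mem _ hz)⟩
    choose b hb using h1
    have h2 : (MM b)ᶜ ∈ residual Baire := isMeagre_MM b
    obtain ⟨z, h3, h4, h5⟩ := (dense_of_mem_residual (inter_mem hOres h2)).inter_open_nonempty _
      (PiNat.isOpen_cylinder _ w N) ⟨w, PiNat.self_mem_cylinder w N⟩
    have hzG : z ∈ G := ⟨hwV h3, h4⟩
    apply h5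
    exact MM_mono (fun l => hb l z ⟨hzG, h3⟩) (hM z (g z) (hGS z hzG))
  obtain ⟨f, hf1, hf2⟩ := exists_scheme G V O (fun z => lft (g z)) (fun z h1 h2 => ⟨h1, h2⟩) a1
    (fun z hz => hz.1) (hUo 0 j0) hO (fun m z hz => hz.2 m) a2 a3
  refine ⟨f, hf1, fun y => ?_⟩
  obtain ⟨z, hz, hzy⟩ := hf2 y
  exact ⟨z, g z, hGS z hz, hzy⟩

/-- Main theorem of this file. -/
theorem hurewicz {n k : ℕ} (hn : 1 ≤ n) (hk : 1 ≤ k)
    (hBP : ∀ A : Set Baire, IsSigma k Baire A → BaireMeasurableSet A)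
    (hU : ∀ R : Set (Baire × Baire), IsPi n (Baire × Baire) R →
      ∃ S ⊆ R, IsSigma k (Baire × Baire) S ∧
        ∀ x, (∃ y, (x, y) ∈ R) → ∃! y, (x, y) ∈ S)
    (A : Set Baire) (hA : IsSigma (n + 1) Baire A) :
    (∃ K : ℕ → Set Baire, (∀ i, IsCompact (K i)) ∧ A ⊆ ⋃ i, K i) ∨
      ∃ f : Baire → Baire, IsClosedEmbedding f ∧ range f ⊆ A := by
  obtain ⟨B, hB, hAB⟩ := hA
  obtain ⟨n, rfl⟩ : ∃ m, n = m + 1 := ⟨n - 1, by omega⟩
  obtain ⟨k, rfl⟩ : ∃ m, k = m + 1 := ⟨k - 1, by omega⟩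
  have hR : IsPi (n + 1) (Baire × Baire)
      {p | (lft p.2, rgt p.2) ∈ B ∧ p.1 ∈ MM (lft p.2)} := by
    have h1 : IsSigma (n + 1) (Baire × Baire)
        (((fun p : Baire × Baire => (lft p.2, rgt p.2)) ⁻¹' Bᶜ) ∪
        ⋂ N : ℕ, ⋃ m : ℕ, ⋃ v : ℕ, ({p : Baire × Baire | env (lft p.2) m ∈ ({v} : Set ℕ)} ∩
          ⋂ i : ℕ, {p : Baire × Baire | p.1 i ∈ {a : ℕ | N ≤ m ∧ (m ≤ i → i ≤ v → a = 0)}})) := by
      refine IsSigma.union (hB.preimage ?_) (IsSigma.iInter fun N => IsSigma.iUnion fun m =>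
        IsSigma.iUnion fun v => IsSigma.inter ?_ (IsSigma.iInter fun i => ?_))
      · exact (continuous_lft.comp continuous_snd).prodMk (continuous_rgt.comp continuous_snd)
      · refine isSigma_of_isClopen _ _ _ ((isClopen_discrete {v}).preimage ?_)
        unfold env lft
        fun_prop
      · refine isSigma_of_isClopen _ _ _ ((isClopen_discrete _).preimage ?_)
        fun_prop
    unfold IsPi
    convert h1 using 1
    ext ⟨z, u⟩
    simp only [mem_compl_iff, mem_setOf_eq, mem_union, mem_preimage, mem_iInter, mem_iUnion, MM,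
      not_and_or, mem_inter_iff, mem_singleton_iff]
    refine or_congr Iff.rfl ?_
    push Not
    refine forall_congr' fun N => exists_congr fun m => ?_
    constructor
    · rintro ⟨h1, h2⟩
      exact ⟨_, rfl, fun i => ⟨h1, fun h3 h4 => h2 i h3 h4⟩⟩
    · rintro ⟨v, rfl, h2⟩
      exact ⟨(h2 0).1, fun i h3 h4 => (h2 i).2 h3 h4⟩
  obtain ⟨S, hSR, hSs, hSu⟩ := hU _ hR
  have hfun : ∀ ω u v, (ω, u) ∈ S → (ω, v) ∈ S → u = v := by
    intro ω u v hu hv
    exact (hSu ω ⟨u, hSR hu⟩).unique hu hv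
  have hSm : ∀ i j, BaireMeasurableSet {ω | ∃ u : Baire, u i = j ∧ (ω, u) ∈ S} := by
    intro i j
    apply hBP
    have h1 : IsSigma (k + 1) (Baire × Baire) ({p : Baire × Baire | p.2 i ∈ ({j} : Set ℕ)} ∩ S) :=
      IsSigma.inter (isSigma_of_isClopen _ _ _ ((isClopen_discrete {j}).preimage (by fun_prop)))
        hSs
    exact h1.proj
  have hdom : {z | ∃ x ∈ A, z ∈ MM x} = {ω | ∃ u, (ω, u) ∈ S} := by
    ext ω
    simp only [mem_setOf_eq]
    constructor
    · rintro ⟨x, hx, hω⟩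
      rw [hAB] at hx
      obtain ⟨⟨x', y⟩, hxy, rfl⟩ := hx
      obtain ⟨u, hu, -⟩ := hSu ω ⟨join x' y, by simpa using ⟨hxy, hω⟩⟩
      exact ⟨u, hu⟩
    · rintro ⟨u, hu⟩
      obtain ⟨h1, h2⟩ := hSR hu
      refine ⟨lft u, ?_, h2⟩
      rw [hAB]
      exact ⟨_, h1, rfl⟩
  by_cases hZ : IsMeagre {z | ∃ x ∈ A, z ∈ MM x}
  · left
    obtain ⟨O, hO, hOd, hOa, hOs⟩ := exists_dense_seq (s := {z | ∃ x ∈ A, z ∈ MM x}ᶜ) hZ
    obtain ⟨x0, hx0⟩ := exists_bound O hO hOd hOa
    refine ⟨fun c => Set.pi univ fun n => Iic (x0 n + c), fun c => ?_, fun x hx => ?_⟩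
    · exact isCompact_univ_pi fun n => (finite_Iic _).isCompact
    · have h1 : ¬ ∃ᶠ n in atTop, x0 n < x n := by
        intro h
        obtain ⟨z, h2, h3⟩ := hx0 x h
        exact hOs (mem_iInter.2 h3) ⟨x, hx, h2⟩
      rw [not_frequently, eventually_atTop] at h1
      obtain ⟨N, hN⟩ := h1
      refine mem_iUnion.2 ⟨∑ i ∈ Finset.range N, x i, ?_⟩
      rw [mem_univ_pi]
      intro i
      rw [mem_Iic]
      by_cases hi : i < N
      · have := Finset.single_le_sum (f := x) (fun _ _ => Nat.zero_le _) (Finset.mem_range.2 hi)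
        omega
      · have := hN i (by omega)
        omega
  · right
    rw [hdom] at hZ
    obtain ⟨f, hf1, hf2⟩ := exists_embedding S hSm hfun hZ (fun z u h => (hSR h).2)
    refine ⟨f, hf1, ?_⟩
    rintro _ ⟨y, rfl⟩
    obtain ⟨z, u, h1, h2⟩ := hf2 y
    rw [← h2, hAB]
    exact ⟨_, (hSR h1).1, rfl⟩

end H97Proj
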