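import Pool.Agent.Lib.H97Proj.Hit
import Pool.Agent.Lib.H97Proj.Filt

/-!
Measurability of Sigma^1_(n+2) sets and uniformization of Pi^1_n relations give the perfect set
property of Sigma^1_(n+1) sets.
-/

namespace H97Proj

open MeasureTheory Set Topology Filter ProbabilityTheory
open scoped ENNReal

/-- Membership in the filter through predictors. -/
lemma FA_iff {A : Set Baire} {a : Set ℕ} : a ∈ FA A ↔
    ∃ z : Baire, ∀ x ∈ A, ∃ j, ∀ k,
      k ∈ a ∨ x k = z (Nat.pair j (Encodable.encode (PiNat.res x k))) := by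
  classical
  constructor
  · rintro ⟨Y, h1, h2⟩
    let P : ℕ → ℕ → Baire × ℕ → Prop := fun j c p =>
      p.1 ∈ Y j ∧ p.2 ∉ a ∧ Encodable.encode (PiNat.res p.1 p.2) = c
    let w : ℕ → ℕ → ℕ := fun j c => if h : ∃ p, P j c p then h.choose.1 h.choose.2 else 0
    refine ⟨fun i => w i.unpair.1 i.unpair.2, fun x hx => ?_⟩
    obtain ⟨j, hj⟩ := mem_iUnion.1 (h1 hx)
    refine ⟨j, fun k => ?_⟩
    by_cases hk : k ∈ a
    · exact Or.inl hk
    right
    have hex : ∃ p, P j (Encodable.encode (PiNat.res x k)) p := ⟨(x, k), hj, hk, rfl⟩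
    simp only [Nat.unpair_pair]
    have hw : w j (Encodable.encode (PiNat.res x k)) = hex.choose.1 hex.choose.2 := dif_pos hex
    rw [hw]
    obtain ⟨h3, h4, h5⟩ := hex.choose_spec
    set x' := hex.choose.1
    set k' := hex.choose.2
    have h6 : PiNat.res x' k' = PiNat.res x k := Encodable.encode_injective h5
    have h7 : k' = k := by
      have := congrArg List.length h6
      simpa using this
    rw [h7] at h6 h4 ⊢
    by_contra hne
    apply h4
    have h8 : PiNat.firstDiff x' x = k :=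
      firstDiff_eq (fun i hi => PiNat.res_eq_res.1 h6 hi) (fun h => hne h.symm)
    rw [← h8]
    exact h2 j x' h3 x hj (fun h => hne (by rw [h]))
  · rintro ⟨z, hz⟩
    refine ⟨fun j => {x | ∀ k, k ∈ a ∨ x k = z (Nat.pair j (Encodable.encode (PiNat.res x k)))},
      fun x hx => mem_iUnion.2 (hz x hx), ?_⟩
    intro j x hx y hy hxy
    rcases hx (PiNat.firstDiff x y) with h | h
    · exact h
    rcases hy (PiNat.firstDiff x y) with h' | h'
    · exact h'
    exfalso
    have h1 : PiNat.res x (PiNat.firstDiff x y) = PiNat.res y (PiNat.firstDiff x y) :=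
      PiNat.res_eq_res.2 fun i hi => PiNat.apply_eq_of_lt_firstDiff hi
    rw [h1] at h
    exact PiNat.apply_firstDiff_ne hxy (h.trans h'.symm)

lemma continuous_code (k : ℕ) :
    Continuous (fun x : Baire => Encodable.encode (PiNat.res x k)) := by
  rw [continuous_discrete_rng]
  intro c
  rw [isOpen_iff_mem_nhds]
  intro x hx
  refine Filter.mem_of_superset ((PiNat.isOpen_cylinder _ x k).mem_nhds
    (PiNat.self_mem_cylinder x k)) ?_
  intro y hy
  rw [PiNat.cylinder_eq_res] at hy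
  have h1 : PiNat.res y k = PiNat.res x k := hy
  simpa [h1] using hx

lemma continuous_ev : Continuous (fun p : Baire × ℕ => p.1 p.2) := by
  rw [continuous_prod_of_discrete_right]
  intro i
  exact continuous_apply i

lemma continuous_cod (f : ℕ → ℕ) (m : ℕ) : Continuous (cod f m) :=
  (continuous_of_discreteTopology (f := Nat.pair m)).comp (continuous_code (f m))

lemma isSigma_clopen {k : ℕ} {X : Type} [TopologicalSpace X] {g : X → ℕ} (hg : Continuous g)
    (Q : Set ℕ) : IsSigma k X {p | g p ∈ Q} :=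
  isSigma_of_isClopen k X _ ((isClopen_discrete Q).preimage hg)

/-- complexity of the filter -/
lemma isSigma_hat {n : ℕ} {A : Set Baire} (hA : IsSigma (n + 1) Baire A) (Q : Set ℕ) :
    IsSigma (n + 2) Baire {ω | {k | ω k ∈ Q} ∈ FA A} := by
  refine isSigma_succ' {p : Baire × Baire | ∀ x ∈ A, ∃ j, ∀ k,
      p.1 k ∈ Q ∨ x k = p.2 (Nat.pair j (Encodable.encode (PiNat.res x k)))} ?_ ?_
  · have h1 : IsSigma (n + 1) ((Baire × Baire) × Baire)
        ((Prod.snd ⁻¹' A) ∩ ⋂ j : ℕ, ⋃ k : ℕ,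
          ({p : (Baire × Baire) × Baire | p.1.1 k ∈ Qᶜ} ∩
          {p : (Baire × Baire) × Baire | Nat.pair (p.2 k)
            (p.1.2 (Nat.pair j (Encodable.encode (PiNat.res p.2 k)))) ∈
              {i : ℕ | i.unpair.1 ≠ i.unpair.2}})) := by
      refine (hA.preimage continuous_snd).inter ?_
      refine IsSigma.iInter fun j => IsSigma.iUnion fun k => IsSigma.inter ?_ ?_
      · exact isSigma_clopen (by fun_prop) _
      · refine isSigma_clopen ?_ _
        have c1 : Continuous (fun p : (Baire × Baire) × Baire => p.2 k) := by fun_prop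
        have c2 : Continuous (fun p : (Baire × Baire) × Baire =>
            p.1.2 (Nat.pair j (Encodable.encode (PiNat.res p.2 k)))) := by
          have c3 : Continuous (fun p : (Baire × Baire) × Baire =>
              (p.1.2, Nat.pair j (Encodable.encode (PiNat.res p.2 k)))) := by
            refine (by fun_prop : Continuous (fun p : (Baire × Baire) × Baire => p.1.2)).prodMk ?_
            exact (continuous_of_discreteTopology (f := Nat.pair j)).comp
              ((continuous_code k).comp continuous_snd)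
          exact continuous_ev.comp c3
        exact (continuous_of_discreteTopology (f := fun q : ℕ × ℕ => Nat.pair q.1 q.2)).comp
          (c1.prodMk c2)
    have h2 := h1.proj
    convert h2 using 1
    ext ⟨ω, z⟩
    simp only [mem_compl_iff, mem_setOf_eq, mem_inter_iff, mem_preimage, mem_iInter, mem_iUnion,
      Nat.unpair_pair]
    push Not
    rfl
  · intro ω
    rw [mem_setOf_eq, FA_iff]
    rfl

/-- Step 1: the union of the null sets attached to the members of `A` is null. -/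
lemma lam_union_eq_zero {n k : ℕ} (hn : 1 ≤ n) (hk : 1 ≤ k)
    (hLM : ∀ A : Set Baire, IsSigma k Baire A → NullMeasurableSet A lam)
    (hU : ∀ R : Set (Baire × Baire), IsPi n (Baire × Baire) R →
      ∃ S ⊆ R, IsSigma k (Baire × Baire) S ∧
        ∀ x, (∃ y, (x, y) ∈ R) → ∃! y, (x, y) ∈ S)
    {A : Set Baire} (hA : IsSigma (n + 1) Baire A)
    (hP : ¬ ∃ P ⊆ A, P.Nonempty ∧ Perfect P) (f : ℕ → ℕ) :
    lam {ω | ∃ x ∈ A, ω ∈ NN f x} = 0 := by
  obtain ⟨B, hB, hAB⟩ := hA
  by_contra hne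
  obtain ⟨n, rfl⟩ : ∃ m, n = m + 1 := ⟨n - 1, by omega⟩
  obtain ⟨k, rfl⟩ : ∃ m, k = m + 1 := ⟨k - 1, by omega⟩
  have hR : IsPi (n + 1) (Baire × Baire)
      {p | (lft p.2, rgt p.2) ∈ B ∧ p.1 ∈ NN f (lft p.2)} := by
    have h1 : IsSigma (n + 1) (Baire × Baire)
        (((fun p : Baire × Baire => (lft p.2, rgt p.2)) ⁻¹' Bᶜ) ∪
        ⋃ N : ℕ, ⋂ m : ℕ, {p : Baire × Baire | p.1 (cod f m (lft p.2)) ∈
          {i : ℕ | N ≤ m → i < m}}) := by
      refine IsSigma.union (hB.preimage ?_) (IsSigma.iUnion fun N => IsSigma.iInter fun m => ?_)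
      · exact (continuous_lft.comp continuous_snd).prodMk (continuous_rgt.comp continuous_snd)
      · refine isSigma_clopen ?_ _
        have c1 : Continuous (fun p : Baire × Baire => (p.1, cod f m (lft p.2))) :=
          continuous_fst.prodMk ((continuous_cod f m).comp (continuous_lft.comp continuous_snd))
        exact continuous_ev.comp c1
    unfold IsPi
    convert h1 using 1
    ext ⟨ω, u⟩
    simp only [mem_compl_iff, mem_setOf_eq, mem_union, mem_preimage, mem_iInter, mem_iUnion, NN,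
      not_and_or, not_frequently, eventually_atTop, not_le, ge_iff_le]
  obtain ⟨S, hSR, hSs, hSu⟩ := hU _ hR
  have hfun : ∀ ω u v, (ω, u) ∈ S → (ω, v) ∈ S → u = v := by
    intro ω u v hu hv
    exact (hSu ω ⟨u, hSR hu⟩).unique hu hv
  have hSm : ∀ i j, NullMeasurableSet {ω | ∃ u : Baire, u i = j ∧ (ω, u) ∈ S} lam := by
    intro i j
    apply hLM
    have h1 : IsSigma (k + 1) (Baire × Baire) ({p : Baire × Baire | p.2 i ∈ ({j} : Set ℕ)} ∩ S) :=
      IsSigma.inter (isSigma_clopen (by fun_prop) _) hSs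
    exact h1.proj
  have hdom : {ω | ∃ x ∈ A, ω ∈ NN f x} = {ω | ∃ u, (ω, u) ∈ S} := by
    ext ω
    simp only [mem_setOf_eq]
    constructor
    · rintro ⟨x, hx, hω⟩
      rw [hAB] at hx
      obtain ⟨⟨x', y⟩, hxy, rfl⟩ := hx
      obtain ⟨u, hu, -⟩ := hSu ω ⟨join x' y, by simpa using ⟨hxy, hω⟩⟩
      exact ⟨u, hu⟩
    · rintro ⟨u, hu⟩
      obtain ⟨h1, h2⟩ := hSR hu
      refine ⟨lft u, ?_, h2⟩
      rw [hAB]
      exact ⟨_, h1, rfl⟩
  rw [hdom] at hne
  obtain ⟨K, L, hK0, hL, hKL, hLS⟩ := exists_compact_piece S hSm hfun hne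
  have hLA : lft '' L ⊆ A := by
    rintro _ ⟨u, hu, rfl⟩
    obtain ⟨ω, hω⟩ := hLS u hu
    rw [hAB]
    exact ⟨_, (hSR hω).1, rfl⟩
  have hLc : (lft '' L).Countable := by
    by_contra hcon
    obtain ⟨D, hD1, hD2, hD3⟩ := exists_perfect_nonempty_of_isClosed_of_not_countable
      (hL.image continuous_lft).isClosed hcon
    exact hP ⟨D, hD3.trans hLA, hD2, hD1⟩
  apply hK0
  refine measure_mono_null (t := ⋃ x ∈ lft '' L, NN f x) ?_ ?_
  · intro ω hω
    obtain ⟨u, hu, hωu⟩ := hKL ω hω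
    exact mem_biUnion (mem_image_of_mem _ hu) (hSR hωu).2
  · exact (measure_biUnion_null_iff hLc).2 fun x _ => lam_NN f x

theorem perfect_sets {n k : ℕ} (hn : 1 ≤ n) (hk : n + 2 ≤ k)
    (hLM : ∀ A : Set Baire, IsSigma k Baire A → NullMeasurableSet A lam)
    (hU : ∀ R : Set (Baire × Baire), IsPi n (Baire × Baire) R →
      ∃ S ⊆ R, IsSigma k (Baire × Baire) S ∧
        ∀ x, (∃ y, (x, y) ∈ R) → ∃! y, (x, y) ∈ S)
    (A : Set Baire) (hA : IsSigma (n + 1) Baire A) :
    A.Countable ∨ ∃ P ⊆ A, P.Nonempty ∧ Perfect P := by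
  by_contra hcon
  rw [not_or] at hcon
  obtain ⟨hA1, hA2⟩ := hcon
  have hnull := lam_union_eq_zero hn (by omega) hLM hU hA hA2
  have key : ∀ (Q : Set ℕ) (q : ℕ), q ∈ Q → (4 : ℝ≥0∞)⁻¹ ≤ geo {q} →
      lam {ω | {k | ω k ∈ Q} ∈ FA A}ᶜ = 0 := by
    intro Q q hqQ hq
    by_contra hne
    obtain ⟨K, hKs, hKc, hK0⟩ := exists_closed
      (hLM _ (isSigma_mono hk (isSigma_hat hA Q))).compl hne
    obtain ⟨a, haF, ω, hω⟩ := rapid_hit (FA A) (fun f hf => rapid_of_null hf (hnull f))
      (fun a ha N => FA_del ha N) q hq K hKc hK0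
    apply hKs hω
    refine FA_up haF ?_
    intro k hk
    simp only [mem_setOf_eq, subst, hk, if_true]
    exact hqQ
  have h1 := key {0} 0 rfl (by
    rw [geo_singleton, zero_add, pow_one]
    exact ENNReal.inv_le_inv.2 (by norm_num))
  have h2 := key {0}ᶜ 1 (by simp) (by
    rw [geo_singleton, ← ENNReal.inv_pow]
    norm_num)
  have h3 := measure_union_null h1 h2
  have h4 : ∃ ω : Baire, ω ∉ {ω | {k | ω k ∈ ({0} : Set ℕ)} ∈ FA A}ᶜ ∪
      {ω | {k | ω k ∈ ({0}ᶜ : Set ℕ)} ∈ FA A}ᶜ := by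
    by_contra hall
    push Not at hall
    rw [eq_univ_of_forall hall, measure_univ] at h3
    exact one_ne_zero h3
  obtain ⟨ω, hω⟩ := h4
  rw [mem_union, not_or, notMem_compl_iff, notMem_compl_iff] at hω
  have h5 := FA_inter hω.1 hω.2
  apply hA1
  apply FA_empty
  convert h5 using 1
  ext k
  simp

end H97Proj
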