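import Pool.Agent.Lib.H97Proj.Defs

/-!
Measure theory on Baire space with the product measure `lam`.
-/

namespace H97Proj

open MeasureTheory Set Topology Filter ProbabilityTheory
open scoped ENNReal

lemma geo_singleton (n : ℕ) : geo {n} = (2 : ℝ≥0∞)⁻¹ ^ (n + 1) := by
  rw [geo, Measure.sum_apply _ (measurableSet_singleton n)]
  rw [tsum_eq_single n]
  · simp
  · intro b hb
    simp [hb]

lemma geo_tail (m : ℕ) : geo {k | m ≤ k} = (2 : ℝ≥0∞)⁻¹ ^ m := by
  induction m with
  | zero => simp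
  | succ m ih =>
    have h1 : {k | m ≤ k} = {m} ∪ {k | m + 1 ≤ k} := by
      ext k; simp only [mem_setOf_eq, mem_union, mem_singleton_iff]; omega
    rw [h1, measure_union (by simp) (MeasurableSet.of_discrete), geo_singleton] at ih
    have h2 : (2 : ℝ≥0∞)⁻¹ ^ m = (2 : ℝ≥0∞)⁻¹ ^ (m + 1) + (2 : ℝ≥0∞)⁻¹ ^ (m + 1) := by
      rw [pow_succ, ← mul_add, ENNReal.inv_two_add_inv_two, mul_one]
    rw [h2] at ih
    exact (ENNReal.add_right_inj (by simp)).1 ih

lemma geo_init (m : ℕ) : geo {k | k < m} = 1 - (2 : ℝ≥0∞)⁻¹ ^ m := by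
  have h1 : {k | k < m} = {k | m ≤ k}ᶜ := by
    ext k; simp
  rw [h1, prob_compl_eq_one_sub MeasurableSet.of_discrete, geo_tail]

lemma lam_pi (S : Finset ℕ) (t : ℕ → Set ℕ) :
    lam {ω | ∀ c ∈ S, ω c ∈ t c} = ∏ c ∈ S, geo (t c) := by
  rw [← Measure.infinitePi_pi (μ := fun _ : ℕ => geo) (s := S) (t := t)
    (fun _ _ => MeasurableSet.of_discrete)]
  rfl

lemma lam_one (c : ℕ) (t : Set ℕ) : lam {ω | ω c ∈ t} = geo t := by
  have := lam_pi {c} (fun _ => t)
  simpa using this

/-- Borel-Cantelli for the sets `N` of the proof. -/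
lemma lam_limsup (c : ℕ → ℕ) : lam {ω | ∃ᶠ m in atTop, m ≤ ω (c m)} = 0 := by
  apply measure_setOf_frequently_eq_zero
  have : ∀ m, lam {ω | m ≤ ω (c m)} = (2 : ℝ≥0∞)⁻¹ ^ m := by
    intro m
    rw [← geo_tail, ← lam_one (c m)]
    rfl
  simp only [this]
  rw [ENNReal.tsum_geometric, ENNReal.one_sub_inv_two, inv_inv]
  simp

lemma card_bound {E : Set Baire} {C m : ℕ} (hC : ENNReal.ofReal (Real.exp (-C)) < lam E)
    (S : Finset ℕ) (h : ∀ c ∈ S, ∀ ω ∈ E, ω c < m) : S.card ≤ C * 2 ^ m := by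
  by_contra hcon
  push Not at hcon
  have h1 : lam E ≤ lam {ω | ∀ c ∈ S, ω c ∈ {k | k < m}} :=
    measure_mono fun ω hω c hc => h c hc ω hω
  rw [lam_pi, Finset.prod_const, geo_init] at h1
  refine absurd (hC.trans_le h1) (not_lt.2 ?_)
  have h2 : (1 : ℝ≥0∞) - 2⁻¹ ^ m = ENNReal.ofReal (1 - (2⁻¹ : ℝ) ^ m) := by
    rw [ENNReal.ofReal_sub _ (by positivity), ENNReal.ofReal_one,
      ENNReal.ofReal_pow (by norm_num), ENNReal.ofReal_inv_of_pos (by norm_num)]
    simp
  have h3 : (0 : ℝ) ≤ 1 - (2⁻¹ : ℝ) ^ m := by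
    have : (2⁻¹ : ℝ) ^ m ≤ 1 := pow_le_one₀ (by norm_num) (by norm_num)
    linarith
  rw [h2, ← ENNReal.ofReal_pow h3]
  apply ENNReal.ofReal_le_ofReal
  calc (1 - (2⁻¹ : ℝ) ^ m) ^ S.card ≤ (Real.exp (-(2⁻¹ : ℝ) ^ m)) ^ S.card := by
        apply pow_le_pow_left₀ h3
        have := Real.add_one_le_exp (-(2⁻¹ : ℝ) ^ m)
        linarith
    _ = Real.exp (-(S.card * (2⁻¹ : ℝ) ^ m)) := by
        rw [← Real.exp_nat_mul]; ring_nf
    _ ≤ Real.exp (-C) := by
        apply Real.exp_le_exp.2
        have h4 : (C : ℝ) * 2 ^ m ≤ S.card := by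
          exact_mod_cast hcon.le
        have h5 : (C : ℝ) = (C * 2 ^ m) * (2⁻¹ : ℝ) ^ m := by
          rw [mul_assoc, ← mul_pow]; norm_num
        have h6 : (C * 2 ^ m : ℝ) * (2⁻¹ : ℝ) ^ m ≤ S.card * (2⁻¹ : ℝ) ^ m :=
          mul_le_mul_of_nonneg_right h4 (by positivity)
        linarith

/-- A positive measure set has a closed subset of positive measure. -/
lemma exists_closed {E : Set Baire} (hE : NullMeasurableSet E lam) (h : lam E ≠ 0) :
    ∃ K ⊆ E, IsClosed K ∧ lam K ≠ 0 := by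
  obtain ⟨t, htE, htm, hte⟩ := hE.exists_measurable_subset_ae_eq
  have ht : 0 < lam t := by
    rw [measure_congr hte]; exact pos_iff_ne_zero.2 h
  obtain ⟨K, hK, ⟨-, hKc⟩, hK0⟩ :=
    innerRegular_isCompact_isClosed_measurableSet_of_finite lam htm 0 ht
  exact ⟨K, hK.trans htE, hKc, hK0.ne'⟩

/-- A measurable uniformizing function has compact graph pieces over sets of positive measure. -/
lemma exists_compact_piece (S : Set (Baire × Baire))
    (hS : ∀ i j, NullMeasurableSet {ω | ∃ u : Baire, u i = j ∧ (ω, u) ∈ S} lam)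
    (hfun : ∀ ω u v, (ω, u) ∈ S → (ω, v) ∈ S → u = v)
    (hZ : lam {ω | ∃ u, (ω, u) ∈ S} ≠ 0) :
    ∃ K L : Set Baire, lam K ≠ 0 ∧ IsCompact L ∧ (∀ ω ∈ K, ∃ u ∈ L, (ω, u) ∈ S) ∧
      (∀ u ∈ L, ∃ ω, (ω, u) ∈ S) := by
  classical
  set Z : Set Baire := {ω | ∃ u, (ω, u) ∈ S} with hZdef
  have hZm : NullMeasurableSet Z lam := by
    have : Z = ⋃ j : ℕ, {ω | ∃ u : Baire, u 0 = j ∧ (ω, u) ∈ S} := by
      ext ω; simp [hZdef]
    rw [this]
    exact NullMeasurableSet.iUnion fun j => hS 0 j
  let g : Baire → Baire := fun ω => if h : ∃ u, (ω, u) ∈ S then h.choose else 0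
  have hg : ∀ ω u, (ω, u) ∈ S → g ω = u := by
    intro ω u h
    have h' : ∃ u, (ω, u) ∈ S := ⟨u, h⟩
    simp only [g, dif_pos h']
    exact hfun ω _ _ h'.choose_spec h
  have hg0 : ∀ ω, ω ∉ Z → g ω = 0 := by
    intro ω h
    exact dif_neg (fun h' => h h')
  have hgm : NullMeasurable g lam := by
    have : @Measurable (NullMeasurableSpace Baire lam) Baire _ _ g := by
      refine measurable_pi_iff.2 fun i => ?_
      refine measurable_to_countable' fun j => ?_
      have h1 : (fun ω => g ω i) ⁻¹' {j} = {ω | ∃ u : Baire, u i = j ∧ (ω, u) ∈ S} ∪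
          (if j = 0 then Zᶜ else ∅) := by
        ext ω
        by_cases hω : ω ∈ Z
        · obtain ⟨u, hu⟩ := hω
          have hg' := hg ω u hu
          simp only [mem_preimage, mem_singleton_iff, hg', mem_union, mem_setOf_eq]
          constructor
          · intro h; exact Or.inl ⟨u, h, hu⟩
          · rintro (⟨v, hv, hv'⟩ | h)
            · rwa [hfun ω u v hu hv']
            · split_ifs at h
              · exact absurd ⟨u, hu⟩ h
              · exact absurd h (by simp)
        · have hg' := hg0 ω hω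
          simp only [mem_preimage, mem_singleton_iff, hg', mem_union, mem_setOf_eq]
          constructor
          · intro h
            right
            have : j = 0 := by simpa using h.symm
            simp [this, hω]
          · rintro (⟨v, hv, hv'⟩ | h)
            · exact absurd ⟨v, hv'⟩ hω
            · split_ifs at h with hj
              · simp [hj]
              · exact absurd h (by simp)
      have h2 : NullMeasurableSet ((fun ω : Baire => g ω i) ⁻¹' {j}) lam := by
        rw [h1]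
        refine (hS i j).union ?_
        split_ifs
        · exact hZm.compl
        · exact MeasurableSet.empty.nullMeasurableSet
      exact h2
    exact this
  have hga : AEMeasurable g lam :=
    hgm.aemeasurable_of_aerange (t := univ) (by simp)
  obtain ⟨g', hg'm, hgg'⟩ := hga
  have hG : lam {ω | g ω = g' ω}ᶜ = 0 := hgg'
  have hE : NullMeasurableSet (Z ∩ {ω | g ω = g' ω}) lam :=
    hZm.inter (NullMeasurableSet.of_compl (NullMeasurableSet.of_null hG))
  have hE0 : lam (Z ∩ {ω | g ω = g' ω}) ≠ 0 := by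
    intro h
    apply hZ
    refine measure_mono_null (t := (Z ∩ {ω | g ω = g' ω}) ∪ {ω | g ω = g' ω}ᶜ) ?_ ?_
    · intro ω hω
      by_cases h' : g ω = g' ω
      · exact Or.inl ⟨hω, h'⟩
      · exact Or.inr h'
    · exact measure_union_null h hG
  obtain ⟨E, hEs, hEm, hEe⟩ := hE.exists_measurable_subset_ae_eq
  have hE1 : 0 < lam E := by
    rw [measure_congr hEe]; exact pos_iff_ne_zero.2 hE0
  obtain ⟨t', ht', hcont, hpol⟩ := hg'm.exists_continuous
  have hborel : @BorelSpace Baire t' _ := by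
    refine @BorelSpace.mk _ t' _ ?_
    rw [@borel_eq_borel_of_le Baire t' Pi.topologicalSpace hpol inferInstance ht']
    exact BorelSpace.measurable_eq
  obtain ⟨K, hKE, ⟨hKc, -⟩, hK0⟩ :=
    @innerRegular_isCompact_isClosed_measurableSet_of_finite _ _ t' _ _ hborel lam _ E hEm 0 hE1
  refine ⟨K, g' '' K, hK0.ne', ?_, ?_, ?_⟩
  · exact @IsCompact.image Baire Baire t' Pi.topologicalSpace K g' hKc hcont
  · intro ω hω
    obtain ⟨⟨u, hu⟩, h2⟩ := hEs (hKE hω)
    refine ⟨g' ω, mem_image_of_mem _ hω, ?_⟩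
    have : g ω = g' ω := h2
    rw [← this, hg ω u hu]
    exact hu
  · rintro _ ⟨ω, hω, rfl⟩
    obtain ⟨⟨u, hu⟩, h2⟩ := hEs (hKE hω)
    have : g ω = g' ω := h2
    refine ⟨ω, ?_⟩
    rw [← this, hg ω u hu]
    exact hu

/-! ### Changing coordinates -/

open Classical in
/-- Replace the coordinates in `a` by `q`. -/
noncomputable def subst (a : Set ℕ) (q : ℕ) (ω : Baire) : Baire :=
  fun k => if k ∈ a then q else ω k

open Classical in
/-- the number of elements of `a` below `N` -/
noncomputable def cnt (a : Set ℕ) (N : ℕ) : ℕ := ((Finset.range N).filter (· ∈ a)).card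

lemma cnt_mono {a b : Set ℕ} (h : a ⊆ b) (N : ℕ) : cnt a N ≤ cnt b N := by
  classical
  refine Finset.card_le_card ?_
  intro k hk
  rw [Finset.mem_filter] at hk ⊢
  exact ⟨hk.1, h hk.2⟩

lemma cnt_eq_zero {a : Set ℕ} {N : ℕ} (h : ∀ k ∈ a, N ≤ k) : cnt a N = 0 := by
  classical
  unfold cnt
  rw [Finset.card_eq_zero, Finset.filter_eq_empty_iff]
  intro k hk hka
  rw [Finset.mem_range] at hk
  have := h k hka
  omega

open Classical in
lemma subst_measure (a : Set ℕ) (q N : ℕ) {E : Set Baire}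
    (hE : ∀ ω ω' : Baire, (∀ k < N, ω k = ω' k) → ω ∈ E → ω' ∈ E) :
    (geo {q}) ^ (cnt a N) * lam (subst a q ⁻¹' E) ≤ lam E := by
  unfold cnt
  set P : Finset ℕ := (Finset.range N).filter (· ∈ a) with hP
  set S : Finset ℕ := (Finset.range N).filter (· ∉ a) with hS
  have hdisj : Disjoint S P := by
    rw [Finset.disjoint_left]
    intro k hk hk'
    simp only [hP, hS, Finset.mem_filter] at hk hk'
    exact hk.2 hk'.2
  have hind : iIndepFun (fun (i : ℕ) (ω : Baire) => ω i) lam :=
    iIndepFun_infinitePi (P := fun _ : ℕ => geo) (X := fun _ x => x) (fun _ => measurable_id)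
  have hind2 := hind.indepFun_finset S P hdisj (fun i => measurable_pi_apply i)
  let ext : (S → ℕ) → Baire := fun v k => if h : k ∈ S then v ⟨k, h⟩ else 0
  let E' : Set (S → ℕ) := {v | subst a q (ext v) ∈ E}
  have hE' : MeasurableSet E' := (to_countable E').measurableSet
  have hA : subst a q ⁻¹' E = (fun (ω : Baire) (i : S) => ω i) ⁻¹' E' := by
    have key : ∀ ω : Baire, ∀ k < N,
        subst a q ω k = subst a q (ext (fun i : S => ω i)) k := by
      intro ω k hk
      by_cases hka : k ∈ a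
      · simp [subst, hka]
      · have hkS : k ∈ S := by simp [hS, hk, hka]
        simp [subst, hka, ext, hkS]
    ext ω
    simp only [mem_preimage]
    constructor
    · intro h
      exact hE _ _ (key ω) h
    · intro h
      exact hE _ _ (fun k hk => (key ω k hk).symm) h
  have hB : {ω : Baire | ∀ c ∈ P, ω c ∈ ({q} : Set ℕ)} =
      (fun (ω : Baire) (i : P) => ω i) ⁻¹' {v | ∀ i, v i = q} := by
    ext ω
    simp only [mem_setOf_eq, mem_preimage, mem_singleton_iff]
    constructor
    · intro h i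
      exact h i i.2
    · intro h c hc
      exact h ⟨c, hc⟩
  have hBm : MeasurableSet {v : P → ℕ | ∀ i, v i = q} := (to_countable _).measurableSet
  have h1 := hind2.measure_inter_preimage_eq_mul _ _ hE' hBm
  rw [← hA, ← hB, lam_pi, Finset.prod_const] at h1
  rw [mul_comm, ← h1]
  apply measure_mono
  rintro ω ⟨h2, h3⟩
  refine hE _ _ ?_ h2
  intro k hk
  by_cases hka : k ∈ a
  · have : k ∈ P := by simp [hP, hk, hka]
    have := h3 k this
    simp only [mem_singleton_iff] at this
    simp [subst, hka, this]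
  · simp [subst, hka]

end H97Proj
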